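import Pool.Agent.H92.Room.Defs

/-!
Instances given by a permutation `f` and a symmetric functional relation `mid`:
the list of `v` is `f v`, then `mid v` (if any), then `f⁻¹ v`.
-/

namespace Pool.Agent.H92.Room

variable {V : Type*}

theorem CycleStable.three {acc : V → V → Prop} {pref : V → V → V → Prop} {M : V → V → Prop}
    (h : CycleStable acc pref M) : ThreeCycleStable acc pref M := fun k hk _ => h k hk

theorem ThreeCycleStable.noPair {acc : V → V → Prop} {pref : V → V → V → Prop}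
    {M : V → V → Prop}
    (h : ThreeCycleStable acc pref M) {a b : V} (hab : a ≠ b)
    (h1 : Wants acc pref M a b) (h2 : Wants acc pref M b a) : False := by
  refine h 2 le_rfl (by norm_num) ⟨(![a, b] : Fin 2 → V), ?_, ?_⟩
  · intro i j hij
    fin_cases i <;> fin_cases j <;> simp_all
  · intro i
    fin_cases i
    · exact h1
    · exact h2

theorem ThreeCycleStable.noTriple {acc : V → V → Prop} {pref : V → V → V → Prop}
    {M : V → V → Prop}
    (h : ThreeCycleStable acc pref M) {a b c : V} (hab : a ≠ b) (hbc : b ≠ c) (hac : a ≠ c)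
    (h1 : Wants acc pref M a b) (h2 : Wants acc pref M b c) (h3 : Wants acc pref M c a) :
    False := by
  refine h 3 (by norm_num) (by norm_num) ⟨(![a, b, c] : Fin 3 → V), ?_, ?_⟩
  · intro i j hij
    fin_cases i <;> fin_cases j <;> simp_all [eq_comm]
  · intro i
    fin_cases i
    · exact h1
    · exact h2
    · exact h3

/-- Data of an `(f, mid)`-instance. -/
structure FM (V : Type*) where
  f : Equiv.Perm V
  mid : V → V → Prop
  f1 : ∀ v, f v ≠ v
  f2 : ∀ v, f (f v) ≠ v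
  msymm : ∀ v w, mid v w → mid w v
  mfun : ∀ v a b, mid v a → mid v b → a = b
  mne : ∀ v a, mid v a → a ≠ f v
  mirr : ∀ v, ¬ mid v v

namespace FM

variable (F : FM V)

def acc (v w : V) : Prop := w = F.f v ∨ v = F.f w ∨ F.mid v w

def pref (v a b : V) : Prop :=
  (a = F.f v ∧ (F.mid v b ∨ v = F.f b)) ∨ (F.mid v a ∧ v = F.f b)

theorem mne' {v a : V} (h : F.mid v a) : v ≠ F.f a := F.mne a v (F.msymm v a h)

theorem isInstance : IsInstance F.acc F.pref := by
  refine ⟨?_, ?_, ?_, ?_, ?_, ?_⟩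
  · rintro a b (h | h | h)
    · exact Or.inr (Or.inl h)
    · exact Or.inl h
    · exact Or.inr (Or.inr (F.msymm _ _ h))
  · rintro a (h | h | h)
    · exact F.f1 a h.symm
    · exact F.f1 a h.symm
    · exact F.mirr a h
  · rintro a b c (⟨h1, h2 | h2⟩ | ⟨h1, h2⟩)
    · exact ⟨Or.inl h1, Or.inr (Or.inr h2)⟩
    · exact ⟨Or.inl h1, Or.inr (Or.inl h2)⟩
    · exact ⟨Or.inr (Or.inr h1), Or.inr (Or.inl h2)⟩
  · rintro a b (⟨h1, h2 | h2⟩ | ⟨h1, h2⟩)
    · exact F.mne a b h2 h1
    · exact F.f2 a (by rw [← h1]; exact h2.symm)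
    · exact F.mne' h1 h2
  · rintro a b c d (⟨h1, h2 | h2⟩ | ⟨h1, h2⟩) (⟨h3, h4 | h4⟩ | ⟨h3, h4⟩)
    · exact absurd h3 (F.mne _ _ h2)
    · exact absurd h3 (F.mne _ _ h2)
    · exact Or.inl ⟨h1, Or.inr h4⟩
    · exact absurd h2.symm (by rw [h3]; exact F.f2 a)
    · exact absurd h2.symm (by rw [h3]; exact F.f2 a)
    · exact absurd h2 (F.mne' h3)
    · exact absurd h2.symm (by rw [h3]; exact F.f2 a)
    · exact absurd h2.symm (by rw [h3]; exact F.f2 a)
    · exact absurd h2 (F.mne' h3)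
  · rintro a b c (h1 | h1 | h1) (h2 | h2 | h2) hne
    · exact absurd (h1.trans h2.symm) hne
    · exact Or.inl (Or.inl ⟨h1, Or.inr h2⟩)
    · exact Or.inl (Or.inl ⟨h1, Or.inl h2⟩)
    · exact Or.inr (Or.inl ⟨h2, Or.inr h1⟩)
    · exact absurd (F.f.injective (h1.symm.trans h2)) hne
    · exact Or.inr (Or.inr ⟨h2, h1⟩)
    · exact Or.inr (Or.inl ⟨h2, Or.inl h1⟩)
    · exact Or.inl (Or.inr ⟨h1, h2⟩)
    · exact absurd (F.mfun _ _ _ h1 h2) hne

theorem listsLE : ListsLE 3 F.acc := by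
  intro a
  have hsub : {b | F.acc a b} ⊆ insert (F.f a) (insert (F.f.symm a) {b | F.mid a b}) := by
    rintro b (h | h | h)
    · exact Or.inl h
    · refine Or.inr (Or.inl ?_)
      rw [h]
      simp
    · exact Or.inr (Or.inr h)
  refine (Set.encard_le_encard hsub).trans ?_
  refine (Set.encard_insert_le _ _).trans ?_
  have h1 : ({b | F.mid a b} : Set V).encard ≤ 1 := by
    rw [Set.encard_le_one_iff]
    intro b c hb hc
    exact F.mfun a b c hb hc
  calc (insert (F.f.symm a) {b | F.mid a b} : Set V).encard + 1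
      ≤ (({b | F.mid a b} : Set V).encard + 1) + 1 := by
        gcongr
        exact Set.encard_insert_le _ _
    _ ≤ (1 + 1) + 1 := by gcongr
    _ = ((3 : ℕ) : ℕ∞) := by norm_num

theorem _root_.Pool.Agent.H92.Room.ListsLE.mono {acc : V → V → Prop} {l m : ℕ} (h : l ≤ m)
    (hl : ListsLE l acc) : ListsLE m acc := fun a =>
  (hl a).trans (by exact_mod_cast h)

section forward

variable {M : V → V → Prop} (hM : IsMatching F.acc M) (hS : ThreeCycleStable F.acc F.pref M)

include hM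

/-- if `v` is not matched with `f⁻¹ v = u` then `u` wants `v`. -/
theorem wants_f {u : V} (h : ¬ M u (F.f u)) : Wants F.acc F.pref M u (F.f u) := by
  by_cases h1 : ∃ c, M u c
  · obtain ⟨c, hc⟩ := h1
    refine Or.inr ⟨c, hc, Or.inl ⟨rfl, ?_⟩⟩
    rcases hM.1 u c hc with h2 | h2 | h2
    · exact absurd (h2 ▸ hc) h
    · exact Or.inr h2
    · exact Or.inl h2
  · push Not at h1
    exact Or.inl ⟨h1, Or.inl rfl⟩

include hS in
theorem matched (v : V) : M v (F.f v) ∨ (∃ w, F.mid v w ∧ M v w) ∨ M v (F.f.symm v) := by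
  by_contra hcon
  push Not at hcon
  obtain ⟨h1, h2, h3⟩ := hcon
  have h4 : ∀ c, ¬ M v c := by
    intro c hc
    rcases hM.1 v c hc with h5 | h5 | h5
    · exact h1 (h5 ▸ hc)
    · have : c = F.f.symm v := by rw [h5]; simp
      exact h3 (this ▸ hc)
    · exact h2 c h5 hc
  set u := F.f.symm v with hu
  have huv : F.f u = v := by simp [hu]
  have h5 : Wants F.acc F.pref M u v := by
    rw [← huv]
    apply F.wants_f hM
    rw [huv]
    exact fun h => h3 (hM.2.1 _ _ h)
  have h6 : Wants F.acc F.pref M v u := Or.inl ⟨h4, Or.inr (Or.inl huv.symm)⟩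
  refine hS.noPair ?_ h5 h6
  intro h
  apply F.f1 u
  rw [huv, h]

omit hM in
include hS in
theorem notBothSad {v w : V} (h : F.mid v w) (h1 : M v (F.f.symm v)) (h2 : M w (F.f.symm w)) :
    False := by
  refine hS.noPair (a := v) (b := w) ?_ ?_ ?_
  · rintro rfl
    exact F.mirr _ h
  · exact Or.inr ⟨_, h1, Or.inr ⟨h, by simp⟩⟩
  · exact Or.inr ⟨_, h2, Or.inr ⟨F.msymm _ _ h, by simp⟩⟩

omit hM in
include hS in
theorem notAllMid {v : V} (hv : F.f (F.f (F.f v)) = v) (h : ∀ u, u = v ∨ u = F.f v ∨ u = F.f (F.f v) →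
    ∃ w, F.mid u w ∧ M u w) : False := by
  have key : ∀ u, (∃ w, F.mid u w ∧ M u w) → Wants F.acc F.pref M u (F.f u) := by
    rintro u ⟨w, hw, hMw⟩
    exact Or.inr ⟨w, hMw, Or.inl ⟨rfl, Or.inl hw⟩⟩
  refine hS.noTriple (a := v) (b := F.f v) (c := F.f (F.f v)) (F.f1 v).symm
    (F.f1 (F.f v)).symm (F.f2 v).symm (key v (h v (by simp))) (key _ (h _ (by simp))) ?_
  have := key _ (h (F.f (F.f v)) (by simp))
  rwa [hv] at this

end forward

/-- Labels: happy (matched with `f v`), matched in the middle, sad (matched with `f⁻¹ v`). -/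
inductive Lab
  | H | D | S
  deriving DecidableEq

open Lab

section backward

variable (lab : V → Lab)
  (h3 : ∀ v, lab (F.f v) = S ↔ lab v = H)
  (h4 : ∀ v, lab v = D → ∃ w, F.mid v w)
  (h5 : ∀ v w, F.mid v w → (lab v = D ↔ lab w = D))
  (h6 : ∀ v w, F.mid v w → ¬ (lab v = S ∧ lab w = S))
  (h8 : ∀ v, ∃ n : ℕ, lab (F.f^[n] v) ≠ D)

/-- The matching of a labelling. -/
def mat (v w : V) : Prop :=
  (lab v = H ∧ w = F.f v) ∨ (lab w = H ∧ v = F.f w) ∨ (lab v = D ∧ F.mid v w)

include h3 h5 in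
theorem mat_isMatching : IsMatching F.acc (F.mat lab) := by
  refine ⟨?_, ?_, ?_⟩
  · rintro a b (⟨_, h⟩ | ⟨_, h⟩ | ⟨_, h⟩)
    · exact Or.inl h
    · exact Or.inr (Or.inl h)
    · exact Or.inr (Or.inr h)
  · rintro a b (⟨h1, h⟩ | ⟨h1, h⟩ | ⟨h1, h⟩)
    · exact Or.inr (Or.inl ⟨h1, h⟩)
    · exact Or.inl ⟨h1, h⟩
    · exact Or.inr (Or.inr ⟨(h5 _ _ h).1 h1, F.msymm _ _ h⟩)
  · rintro a b c (⟨h1, h⟩ | ⟨h1, h⟩ | ⟨h1, h⟩) (⟨g1, g⟩ | ⟨g1, g⟩ | ⟨g1, g⟩)
    · rw [h, g]
    · have := (h3 c).2 g1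
      rw [← g, h1] at this
      cases this
    · rw [h1] at g1; cases g1
    · have := (h3 b).2 h1
      rw [← h, g1] at this
      cases this
    · exact F.f.injective (h.symm.trans g)
    · have := (h3 b).2 h1
      rw [← h, g1] at this
      cases this
    · rw [h1] at g1; cases g1
    · have := (h3 c).2 g1
      rw [← g, h1] at this
      cases this
    · exact F.mfun _ _ _ h g

include h3 h4 in
theorem mat_wants {v w : V} (h : Wants F.acc F.pref (F.mat lab) v w) :
    (lab v = D ∧ w = F.f v) ∨ (lab v = S ∧ (w = F.f v ∨ F.mid v w)) := by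
  have htot : ∃ c, F.mat lab v c := by
    cases hv : lab v with
    | H => exact ⟨F.f v, Or.inl ⟨hv, rfl⟩⟩
    | D =>
      obtain ⟨w, hw⟩ := h4 v hv
      exact ⟨w, Or.inr (Or.inr ⟨hv, hw⟩)⟩
    | S =>
      refine ⟨F.f.symm v, Or.inr (Or.inl ⟨?_, by simp⟩)⟩
      rw [← h3]
      simpa using hv
  rcases h with ⟨h, _⟩ | ⟨c, hc, hp⟩
  · obtain ⟨c, hc⟩ := htot
    exact absurd hc (h c)
  · rcases hc with ⟨h1, h2⟩ | ⟨h1, h2⟩ | ⟨h1, h2⟩
    · rcases hp with ⟨p1, p2 | p2⟩ | ⟨p1, p2⟩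
      · exact absurd h2 (F.mne _ _ p2)
      · exact absurd p2.symm (by rw [h2]; exact F.f2 v)
      · exact absurd p2.symm (by rw [h2]; exact F.f2 v)
    · have hS : lab v = S := by rw [h2]; exact (h3 c).2 h1
      refine Or.inr ⟨hS, ?_⟩
      rcases hp with ⟨p1, _⟩ | ⟨p1, _⟩
      · exact Or.inl p1
      · exact Or.inr p1
    · refine Or.inl ⟨h1, ?_⟩
      rcases hp with ⟨p1, _⟩ | ⟨p1, p2⟩
      · exact p1
      · exact absurd p2 (F.mne' h2)

include h3 h4 h5 h6 h8 in
theorem mat_cycleStable : CycleStable F.acc F.pref (F.mat lab) := by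
  rintro k hk ⟨a, -, ha⟩
  have hW := fun i => F.mat_wants lab h3 h4 (ha i)
  have hne : ∀ i, lab (a i) ≠ H := by
    intro i hi
    rcases hW i with ⟨h, _⟩ | ⟨h, _⟩ <;> rw [hi] at h <;> cases h
  have hD1 : ∀ i, lab (a (i + 1)) = D := by
    intro i
    have hf : a (i + 1) = F.f (a i) → lab (a (i + 1)) = D := by
      intro he
      have h1 : lab (a (i + 1)) ≠ S := by
        rw [he]
        exact fun h => hne i ((h3 _).1 h)
      cases hl : lab (a (i + 1)) with
      | H => exact absurd hl (hne _)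
      | D => rfl
      | S => exact absurd hl h1
    rcases hW i with ⟨h, h'⟩ | ⟨h, h' | h'⟩
    · exact hf h'
    · exact hf h'
    · exfalso
      have h1 : lab (a (i + 1)) ≠ S := fun hh => h6 _ _ h' ⟨h, hh⟩
      have h2 : lab (a (i + 1)) ≠ D := by
        intro hh
        rw [(h5 _ _ h').2 hh] at h
        cases h
      cases hl : lab (a (i + 1)) with
      | H => exact hne _ hl
      | D => exact h2 hl
      | S => exact h1 hl
  have hD : ∀ i, lab (a i) = D := by
    intro i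
    have := hD1 (i - 1)
    simpa using this
  have hstep : ∀ i, a (i + 1) = F.f (a i) := by
    intro i
    rcases hW i with ⟨_, h'⟩ | ⟨h, _⟩
    · exact h'
    · rw [hD i] at h; cases h
  have hit : ∀ n : ℕ, F.f^[n] (a 0) = a n := by
    intro n
    induction n with
    | zero => simp
    | succ n ih =>
      rw [Function.iterate_succ_apply', ih, ← hstep]
      push_cast
      rfl
  obtain ⟨n, hn⟩ := h8 (a 0)
  rw [hit] at hn
  exact hn (hD _)

end backward

end FM

end Pool.Agent.H92.Room
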