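import Mathlib

/-!
Stable roommates with incomplete strict preference lists: basic definitions.
-/

namespace Pool.Agent.H92.Room

variable {V : Type*}

/-- `acc a b`: `a` finds `b` acceptable; `pref a b c`: `a` strictly prefers `b` to `c`.
This says that `acc` is symmetric and irreflexive, and that for each agent `a` the relation
`pref a` is a strict linear order on the set of the agents acceptable to `a`. -/
def IsInstance (acc : V → V → Prop) (pref : V → V → V → Prop) : Prop :=
  (∀ a b, acc a b → acc b a) ∧ (∀ a, ¬ acc a a) ∧
  (∀ a b c, pref a b c → acc a b ∧ acc a c) ∧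
  (∀ a b, ¬ pref a b b) ∧
  (∀ a b c d, pref a b c → pref a c d → pref a b d) ∧
  (∀ a b c, acc a b → acc a c → b ≠ c → pref a b c ∨ pref a c b)

/-- Every preference list has length at most `l`. -/
def ListsLE (l : ℕ) (acc : V → V → Prop) : Prop :=
  ∀ a, {b | acc a b}.encard ≤ l

/-- `M` (as a symmetric relation) is a matching of mutually acceptable pairs. -/
def IsMatching (acc : V → V → Prop) (M : V → V → Prop) : Prop :=
  (∀ a b, M a b → acc a b) ∧ (∀ a b, M a b → M b a) ∧ (∀ a b c, M a b → M a c → b = c)

/-- Either `a` is unassigned and finds `b` acceptable, or `a` prefers `b` to its partner. -/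
def Wants (acc : V → V → Prop) (pref : V → V → V → Prop) (M : V → V → Prop) (a b : V) : Prop :=
  ((∀ c, ¬ M a c) ∧ acc a b) ∨ ∃ c, M a c ∧ pref a b c

/-- `M` has a blocking cycle of length `k`: distinct agents `a 0, ..., a (k-1)` such that
each `a i` wants `a (i+1)`, indices modulo `k`. -/
def BlockingCycle (acc : V → V → Prop) (pref : V → V → V → Prop) (M : V → V → Prop)
    (k : ℕ) : Prop :=
  ∃ a : ZMod k → V, Function.Injective a ∧ ∀ i, Wants acc pref M (a i) (a (i + 1))

/-- No blocking cycle (of any length `k ≥ 2`). -/
def CycleStable (acc : V → V → Prop) (pref : V → V → V → Prop) (M : V → V → Prop) : Prop :=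
  ∀ k, 2 ≤ k → ¬ BlockingCycle acc pref M k

/-- No blocking cycle of length 2 or 3. -/
def ThreeCycleStable (acc : V → V → Prop) (pref : V → V → V → Prop) (M : V → V → Prop) :
    Prop :=
  ∀ k, 2 ≤ k → k ≤ 3 → ¬ BlockingCycle acc pref M k

/-- The instance has all lists of length at most `l` and a cycle stable matching. -/
def HasCS (l : ℕ) (acc : V → V → Prop) (pref : V → V → V → Prop) : Prop :=
  IsInstance acc pref ∧ ListsLE l acc ∧ ∃ M, IsMatching acc M ∧ CycleStable acc pref M

/-- The instance has all lists of length at most `l` and a 3-cycle stable matching. -/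
def HasCS3 (l : ℕ) (acc : V → V → Prop) (pref : V → V → V → Prop) : Prop :=
  IsInstance acc pref ∧ ListsLE l acc ∧ ∃ M, IsMatching acc M ∧ ThreeCycleStable acc pref M

end Pool.Agent.H92.Room
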