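import Pool.Agent.H92.Room.Core

/-!
The gadget: satisfiability of a 3-CNF `(X, C, lit)` as existence of a (3-)cycle stable matching
in an instance all of whose lists have length at most 3.
-/

namespace Pool.Agent.H92.Room

variable {X C : Type*}

/-- The CNF is satisfiable. -/
def Satisfiable (lit : C → Fin 3 → X × Bool) : Prop :=
  ∃ α : X → Bool, ∀ c, ∃ p, α (lit c p).1 = (lit c p).2

abbrev W (X C : Type*) := (X × C × Fin 3 × Bool) ⊕ (C × Fin 3 × Fin 4)

/-- the permutation -/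
def gf (nxt : Equiv.Perm C) : W X C → W X C
  | .inl (x, c, p, false) => .inl (x, c, p, true)
  | .inl (x, c, 0, true) => .inl (x, c, 1, false)
  | .inl (x, c, 1, true) => .inl (x, c, 2, false)
  | .inl (x, c, 2, true) => .inl (x, nxt c, 0, false)
  | .inr (c, k, 0) => .inr (c, k, 1)
  | .inr (c, k, 1) => .inr (c, k, 2)
  | .inr (c, k, 2) => .inr (c, k + 1, 0)
  | .inr (c, k, 3) => .inr (c, k + 2, 3)

/-- its inverse -/
def gg (nxt : Equiv.Perm C) : W X C → W X C
  | .inl (x, c, p, true) => .inl (x, c, p, false)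
  | .inl (x, c, 0, false) => .inl (x, nxt.symm c, 2, true)
  | .inl (x, c, 1, false) => .inl (x, c, 0, true)
  | .inl (x, c, 2, false) => .inl (x, c, 1, true)
  | .inr (c, k, 0) => .inr (c, k + 2, 2)
  | .inr (c, k, 1) => .inr (c, k, 0)
  | .inr (c, k, 2) => .inr (c, k, 1)
  | .inr (c, k, 3) => .inr (c, k + 1, 3)

def gmid (lit : C → Fin 3 → X × Bool) : W X C → W X C → Prop
  | .inl (x, c, p, b), .inr (c', k, m) => m = 1 ∧ c' = c ∧ k = p ∧ lit c p = (x, !b)
  | .inr (c', k, m), .inl (x, c, p, b) => m = 1 ∧ c' = c ∧ k = p ∧ lit c p = (x, !b)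
  | .inr (c, k, m), .inr (c', k', m') => c' = c ∧ k' = k ∧ ((m = 0 ∧ m' = 3) ∨ (m = 3 ∧ m' = 0))
  | .inl _, .inl _ => False

theorem fin3_a (k : Fin 3) : k + 2 + 1 = k := by revert k; decide
theorem fin3_b (k : Fin 3) : k + 1 + 2 = k := by revert k; decide
theorem fin3_c (k : Fin 3) : k + 1 ≠ k := by revert k; decide
theorem fin3_d (k : Fin 3) : k + 2 ≠ k := by revert k; decide
theorem fin3_e (k : Fin 3) : k + 2 + 2 = k + 1 := by revert k; decide
theorem fin3_f (k : Fin 3) : k + 1 + 1 = k + 2 := by revert k; decide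
theorem fin3_g (k j : Fin 3) : j = k ∨ j = k + 1 ∨ j = k + 2 := by revert k j; decide

/-- The gadget data. -/
def gad (nxt : Equiv.Perm C) (lit : C → Fin 3 → X × Bool) : FM (W X C) where
  f := 
    { toFun := gf nxt
      invFun := gg nxt
      left_inv := by
        rintro (⟨x, c, p, b⟩ | ⟨c, k, m⟩)
        · cases b <;> fin_cases p <;> simp [gf, gg]
        · fin_cases m <;> simp [gf, gg, fin3_a, fin3_b]
      right_inv := by
        rintro (⟨x, c, p, b⟩ | ⟨c, k, m⟩)
        · cases b <;> fin_cases p <;> simp [gf, gg]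
        · fin_cases m <;> simp [gf, gg, fin3_a, fin3_b] }
  mid := gmid lit
  f1 := by
    rintro (⟨x, c, p, b⟩ | ⟨c, k, m⟩)
    · cases b <;> fin_cases p <;> simp [gf]
    · fin_cases m <;> simp [gf]
  f2 := by
    rintro (⟨x, c, p, b⟩ | ⟨c, k, m⟩)
    · cases b <;> fin_cases p <;> simp [gf]
    · fin_cases m <;> simp [gf, fin3_e]
  msymm := by
    rintro (⟨x, c, p, b⟩ | ⟨c, k, m⟩) (⟨x', c', p', b'⟩ | ⟨c', k', m'⟩) h
    · exact h
    · exact h
    · exact h
    · obtain ⟨rfl, rfl, h | h⟩ := h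
      · exact ⟨rfl, rfl, Or.inr ⟨h.2, h.1⟩⟩
      · exact ⟨rfl, rfl, Or.inl ⟨h.2, h.1⟩⟩
  mfun := by
    rintro (⟨x, c, p, b⟩ | ⟨c, k, m⟩) (⟨x', c', p', b'⟩ | ⟨c', k', m'⟩)
      (⟨x'', c'', p'', b''⟩ | ⟨c'', k'', m''⟩) h h'
    · exact h.elim
    · exact h.elim
    · exact h'.elim
    · obtain ⟨rfl, rfl, rfl, h4⟩ := h
      obtain ⟨rfl, rfl, rfl, h4'⟩ := h'
      rfl
    · obtain ⟨rfl, rfl, rfl, h4⟩ := h
      obtain ⟨-, rfl, rfl, h4'⟩ := h'
      rw [h4] at h4'
      simp only [Prod.mk.injEq] at h4'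
      have : b' = b'' := by
        have := h4'.2
        revert this
        cases b' <;> cases b'' <;> simp
      rw [h4'.1, this]
    · obtain ⟨rfl, rfl, rfl, h4⟩ := h
      obtain ⟨rfl, rfl, h5 | h5⟩ := h'
      · exact absurd h5.1 (by decide)
      · exact absurd h5.1 (by decide)
    · obtain ⟨rfl, rfl, rfl, h4⟩ := h'
      obtain ⟨rfl, rfl, h5 | h5⟩ := h
      · exact absurd h5.1 (by decide)
      · exact absurd h5.1 (by decide)
    · obtain ⟨rfl, rfl, h5⟩ := h
      obtain ⟨rfl, rfl, h5'⟩ := h'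
      have : m' = m'' := by
        rcases h5 with h5 | h5 <;> rcases h5' with h5' | h5'
        · rw [h5.2, h5'.2]
        · exact absurd (h5.1.symm.trans h5'.1) (by decide)
        · exact absurd (h5.1.symm.trans h5'.1) (by decide)
        · rw [h5.2, h5'.2]
      rw [this]
  mne := by
    rintro (⟨x, c, p, b⟩ | ⟨c, k, m⟩) (⟨x', c', p', b'⟩ | ⟨c', k', m'⟩) h
    · exact h.elim
    · cases b <;> fin_cases p <;> simp [gf]
    · fin_cases m <;> simp [gf]
    · obtain ⟨rfl, rfl, ⟨rfl, rfl⟩ | ⟨rfl, rfl⟩⟩ := h <;> simp [gf]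
  mirr := by
    rintro (⟨x, c, p, b⟩ | ⟨c, k, m⟩) h
    · exact h.elim
    · obtain ⟨-, -, ⟨rfl, h⟩ | ⟨rfl, h⟩⟩ := h
      · exact absurd h (by decide)
      · exact absurd h (by decide)

/-- The combinatorics of one clause gadget. -/
theorem clause_comb (H D S : Fin 3 → Fin 4 → Prop)
    (h1 : ∀ k m, H k m ∨ D k m ∨ S k m)
    (hd : ∀ k m, H k m → ¬ D k m) (hs : ∀ k m, H k m → ¬ S k m) (hds : ∀ k m, D k m → ¬ S k m)
    (r0 : ∀ k, S k 1 ↔ H k 0) (r1 : ∀ k, S k 2 ↔ H k 1) (r2 : ∀ k, S (k + 1) 0 ↔ H k 2)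
    (r3 : ∀ k, S (k + 2) 3 ↔ H k 3)
    (d2 : ∀ k, ¬ D k 2) (e1 : ∀ k, D k 3 ↔ D k 0) (e2 : ∀ k, ¬ (S k 3 ∧ S k 0))
    (tri : ¬ ∀ k, D k 3) : (∀ p, ¬ D p 1) ∧ ∃ p, S p 1 := by
  -- some triangle vertex is not matched in the middle
  have key : ∃ k, D k 3 ∧ S (k + 1) 3 ∧ H (k + 2) 3 := by
    -- not all are H/S alternating
    have hex : ∃ k, D k 3 := by
      by_contra hno
      push Not at hno
      have halt : ∀ k, S (k + 2) 3 ↔ ¬ S k 3 := by
        intro k
        rw [r3]
        constructor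
        · exact hs k 3
        · intro h
          rcases h1 k 3 with h' | h' | h'
          · exact h'
          · exact absurd h' (hno k)
          · exact absurd h' h
      have a0 := halt 0
      have a1 := halt 1
      have a2 := halt 2
      have e0 : (0 : Fin 3) + 2 = 2 := rfl
      have e1' : (1 : Fin 3) + 2 = 0 := rfl
      have e2' : (2 : Fin 3) + 2 = 1 := rfl
      rw [e0] at a0
      rw [e1'] at a1
      rw [e2'] at a2
      tauto
    obtain ⟨k, hk⟩ := hex
    -- f t_k = t_{k+2} is not S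
    have nS : ∀ j, D j 3 → ¬ S (j + 2) 3 := fun j hj h => hd j 3 ((r3 j).1 h) hj
    rcases h1 (k + 2) 3 with h | h | h
    · refine ⟨k, hk, ?_, h⟩
      have := (r3 (k + 2)).2 h
      rwa [fin3_e] at this
    · -- D k, D (k+2): then k+1 is not S; if H then S (k+1+2) = S k contradiction; so D
      have h' := nS _ h
      rw [fin3_e] at h'
      exfalso
      apply tri
      have hD : D (k + 1) 3 := by
        rcases h1 (k + 1) 3 with g | g | g
        · have := (r3 (k + 1)).2 g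
          rw [fin3_b] at this
          exact absurd this (hds _ _ hk)
        · exact g
        · exact absurd g h'
      intro j
      rcases fin3_g k j with rfl | rfl | rfl
      · exact hk
      · exact hD
      · exact h
    · exact absurd h (nS k hk)
  obtain ⟨k, hk, hk1, hk2⟩ := key
  have a1 : H (k + 1) 0 := by
    rcases h1 (k + 1) 0 with g | g | g
    · exact g
    · exact absurd hk1 (hds _ _ ((e1 _).2 g))
    · exact absurd ⟨hk1, g⟩ (e2 _)
  have a2 : S (k + 1) 1 := (r0 _).2 a1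
  have a3 : H (k + 1) 2 := by
    rcases h1 (k + 1) 2 with g | g | g
    · exact g
    · exact absurd g (d2 _)
    · exact absurd a2 (hs _ _ ((r1 _).1 g))
  have a4 : S (k + 2) 0 := by
    have := (r2 _).2 a3
    rwa [fin3_f] at this
  have a5 : D k 0 := (e1 _).1 hk
  -- (k+2,1): not S
  have a6 : ¬ S (k + 2) 1 := fun h => hs _ _ ((r0 _).1 h) a4
  have a7 : ¬ D (k + 2) 1 := by
    intro h
    have b1 : ¬ S (k + 2) 2 := fun h' => hd _ _ ((r1 _).1 h') h
    have b2 : H (k + 2) 2 := by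
      rcases h1 (k + 2) 2 with g | g | g
      · exact g
      · exact absurd g (d2 _)
      · exact absurd g b1
    have b3 := (r2 _).2 b2
    rw [fin3_a] at b3
    exact hds _ _ a5 b3
  have a8 : ¬ D k 1 := by
    intro h
    have b1 : ¬ S k 2 := fun h' => hd _ _ ((r1 _).1 h') h
    have b2 : H k 2 := by
      rcases h1 k 2 with g | g | g
      · exact g
      · exact absurd g (d2 _)
      · exact absurd g b1
    have b3 := (r2 _).2 b2
    exact hs _ _ a1 b3
  refine ⟨?_, k + 1, a2⟩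
  intro j
  rcases fin3_g k j with rfl | rfl | rfl
  · exact a8
  · exact fun h => hds _ _ h a2
  · exact a7

theorem sat_of_three {nxt : Equiv.Perm C}
    (htr : ∀ P : C → Prop, (∀ c, P c ↔ P (nxt c)) → ∀ c c', P c ↔ P c')
    {lit : C → Fin 3 → X × Bool} {M : W X C → W X C → Prop}
    (hM : IsMatching (gad nxt lit).acc M)
    (hS : ThreeCycleStable (gad nxt lit).acc (gad nxt lit).pref M) : Satisfiable lit := by
  classical
  set F := gad nxt lit with hF
  let H : W X C → Prop := fun v => M v (F.f v)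
  let D : W X C → Prop := fun v => ∃ w, F.mid v w ∧ M v w
  let S : W X C → Prop := fun v => M v (F.f.symm v)
  have h1 : ∀ v, H v ∨ D v ∨ S v := F.matched hM hS
  have hd : ∀ v, H v → ¬ D v := by
    rintro v h ⟨w, hw, hw'⟩
    exact F.mne _ _ hw (hM.2.2 _ _ _ hw' h)
  have hs : ∀ v, H v → ¬ S v := by
    intro v h h'
    have : F.f.symm v = F.f v := hM.2.2 _ _ _ h' h
    apply F.f2 v
    rw [← this]
    simp
  have hds : ∀ v, D v → ¬ S v := by
    rintro v ⟨w, hw, hw'⟩ h
    have : w = F.f.symm v := hM.2.2 _ _ _ hw' h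
    apply F.mne' hw
    rw [this]
    simp
  have hfs : ∀ v, S (F.f v) ↔ H v := by
    intro v
    simp only [H, S, Equiv.symm_apply_apply]
    exact ⟨fun h => hM.2.1 _ _ h, fun h => hM.2.1 _ _ h⟩
  have hDw : ∀ v w, F.mid v w → (D v → D w) := by
    rintro v w h ⟨w', h1, h2⟩
    have : w' = w := F.mfun _ _ _ h1 h
    subst this
    exact ⟨v, F.msymm _ _ h1, hM.2.1 _ _ h2⟩
  have hDiff : ∀ v w, F.mid v w → (D v ↔ D w) := fun v w h =>
    ⟨hDw v w h, hDw w v (F.msymm _ _ h)⟩
  have hSS : ∀ v w, F.mid v w → ¬ (S v ∧ S w) := fun v w h h' => F.notBothSad hS h h'.1 h'.2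
  have hDm : ∀ v, D v → ∃ w, F.mid v w := fun v ⟨w, h, _⟩ => ⟨w, h⟩
  -- clause gadgets
  have hcl : ∀ c, (∀ p : Fin 3, ¬ D (.inr (c, p, 1))) ∧ ∃ p : Fin 3, S (.inr (c, p, 1)) := by
    intro c
    refine clause_comb (fun k m => H (.inr (c, k, m))) (fun k m => D (.inr (c, k, m)))
      (fun k m => S (.inr (c, k, m))) (fun k m => h1 _) (fun k m => hd _) (fun k m => hs _)
      (fun k m => hds _) (fun k => hfs (.inr (c, k, 0))) (fun k => hfs (.inr (c, k, 1)))
      (fun k => hfs (.inr (c, k, 2))) (fun k => hfs (.inr (c, k, 3))) ?_ ?_ ?_ ?_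
    · intro k h
      obtain ⟨w, hw⟩ := hDm _ h
      rcases w with ⟨x, c', p, b⟩ | ⟨c', k', m'⟩
      · exact absurd hw.1 (by decide)
      · obtain ⟨_, _, h | h⟩ := hw
        · exact absurd h.1 (by decide)
        · exact absurd h.1 (by decide)
    · intro k
      exact hDiff _ _ ⟨rfl, rfl, Or.inr ⟨rfl, rfl⟩⟩
    · intro k
      exact hSS _ _ ⟨rfl, rfl, Or.inr ⟨rfl, rfl⟩⟩
    · intro hall
      refine F.notAllMid hS (v := .inr (c, 0, 3)) ?_ ?_
      · change gf nxt (gf nxt (gf nxt (.inr (c, 0, 3)))) = _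
        simp only [gf]
        rfl
      · intro u hu
        have e1 : F.f (.inr (c, 0, 3)) = (.inr (c, 2, 3) : W X C) := rfl
        have e2 : F.f (.inr (c, 2, 3)) = (.inr (c, 1, 3) : W X C) := rfl
        rw [e1, e2] at hu
        rcases hu with rfl | rfl | rfl
        · exact hall 0
        · exact hall 2
        · exact hall 1
  -- variable cycles have no middle-matched vertices
  have hvar : ∀ x c p b, ¬ D (.inl (x, c, p, b)) := by
    intro x c p b h
    obtain ⟨w, hw⟩ := hDm _ h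
    have hDw' := (hDiff _ _ hw).1 h
    rcases w with ⟨x', c', p', b'⟩ | ⟨c', k', m'⟩
    · exact hw.elim
    · obtain ⟨rfl, rfl, rfl, -⟩ := hw
      exact (hcl _).1 _ hDw'
  have halt : ∀ v : X × C × Fin 3 × Bool, (S (.inl v) ↔ ¬ H (.inl v)) := by
    rintro ⟨x, c, p, b⟩
    constructor
    · exact fun h h' => hs _ h' h
    · intro h
      rcases h1 (.inl (x, c, p, b)) with g | g | g
      · exact absurd g h
      · exact absurd g (hvar _ _ _ _)
      · exact g
  have hFT : ∀ x c p, (H (.inl (x, c, p, true)) ↔ ¬ H (.inl (x, c, p, false))) := by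
    intro x c p
    have := hfs (.inl (x, c, p, false))
    have e : F.f (.inl (x, c, p, false)) = (.inl (x, c, p, true) : W X C) := rfl
    rw [e, halt] at this
    tauto
  have hstep : ∀ x c p p', F.f (.inl (x, c, p, true)) = (.inl (x, c, p', false) : W X C) →
      (H (.inl (x, c, p, false)) ↔ H (.inl (x, c, p', false))) := by
    intro x c p p' e
    have := hfs (.inl (x, c, p, true))
    rw [e, halt, hFT] at this
    tauto
  have h01 : ∀ x c, (H (.inl (x, c, 0, false)) ↔ H (.inl (x, c, 1, false))) :=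
    fun x c => hstep x c 0 1 rfl
  have h12 : ∀ x c, (H (.inl (x, c, 1, false)) ↔ H (.inl (x, c, 2, false))) :=
    fun x c => hstep x c 1 2 rfl
  have h20 : ∀ x c, (H (.inl (x, c, 2, false)) ↔ H (.inl (x, nxt c, 0, false))) := by
    intro x c
    have := hfs (.inl (x, c, 2, true))
    have e : F.f (.inl (x, c, 2, true)) = (.inl (x, nxt c, 0, false) : W X C) := rfl
    rw [e, halt, hFT] at this
    tauto
  have hconst : ∀ x c c', (H (.inl (x, c, 0, false)) ↔ H (.inl (x, c', 0, false))) := by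
    intro x c c'
    refine htr (fun c => H (.inl (x, c, 0, false))) ?_ c c'
    intro c
    exact ((h01 x c).trans (h12 x c)).trans (h20 x c)
  have hconst' : ∀ x c p c' p', (H (.inl (x, c, p, false)) ↔ H (.inl (x, c', p', false))) := by
    have h0 : ∀ x c p, (H (.inl (x, c, 0, false)) ↔ H (.inl (x, c, p, false))) := by
      intro x c p
      fin_cases p
      · exact Iff.rfl
      · exact h01 x c
      · exact (h01 x c).trans (h12 x c)
    intro x c p c' p'
    exact ((h0 x c p).symm.trans (hconst x c c')).trans (h0 x c' p')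
  by_cases hC : Nonempty C
  swap
  · exact ⟨fun _ => true, fun c => absurd ⟨c⟩ hC⟩
  obtain ⟨c0⟩ := hC
  refine ⟨fun x => decide (H (.inl (x, c0, 0, false))), fun c => ?_⟩
  obtain ⟨p, hp⟩ := (hcl c).2
  refine ⟨p, ?_⟩
  rcases hxs : lit c p with ⟨x, s⟩
  have hmid : F.mid (.inr (c, p, 1)) (.inl (x, c, p, !s)) := by
    refine ⟨rfl, rfl, rfl, ?_⟩
    rw [hxs]
    simp
  have hH : H (.inl (x, c, p, !s)) := by
    rcases h1 (.inl (x, c, p, !s)) with g | g | g
    · exact g
    · exact absurd g (hvar _ _ _ _)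
    · exact absurd ⟨hp, g⟩ (hSS _ _ hmid)
  simp only
  cases s with
  | true =>
    simp only [Bool.not_true] at hH
    rw [hconst' x c p c0 0] at hH
    simpa using hH
  | false =>
    simp only [Bool.not_false] at hH
    rw [hFT, hconst' x c p c0 0] at hH
    simpa using hH

open FM.Lab

/-- labels of a clause gadget; `d` is the position relative to the chosen true literal -/
def clab : Fin 3 → Fin 4 → FM.Lab
  | 0, 0 => H
  | 0, 1 => S
  | 0, 2 => H
  | 0, 3 => S
  | 1, 0 => S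
  | 1, 1 => H
  | 1, 2 => S
  | 1, 3 => H
  | 2, 0 => D
  | 2, 1 => H
  | 2, 2 => S
  | 2, 3 => D

def glab (α : X → Bool) (j : C → Fin 3) : W X C → FM.Lab
  | .inl (x, _, _, b) => if α x = b then S else H
  | .inr (c, k, m) => clab (k - j c) m

theorem clab_facts : ∀ d : Fin 3, (clab d 1 = S ↔ clab d 0 = H) ∧ (clab d 2 = S ↔ clab d 1 = H) ∧
    (clab (d + 1) 0 = S ↔ clab d 2 = H) ∧ (clab (d + 2) 3 = S ↔ clab d 3 = H) ∧
    (clab d 0 = D ↔ clab d 3 = D) ∧ ¬ (clab d 0 = S ∧ clab d 3 = S) ∧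
    (clab d 1 ≠ D) ∧ (clab d 2 ≠ D) ∧ (clab d 1 = S → d = 0) ∧
    (clab d 3 ≠ D ∨ clab (d + 2) 3 ≠ D) := by decide

theorem fin3_h (k j : Fin 3) : k + 1 - j = k - j + 1 := by revert k j; decide
theorem fin3_i (k j : Fin 3) : k + 2 - j = k - j + 2 := by revert k j; decide
theorem fin3_j (k j : Fin 3) (h : k - j = 0) : k = j := by revert k j; decide

theorem cs_of_sat {nxt : Equiv.Perm C} {lit : C → Fin 3 → X × Bool} (h : Satisfiable lit) :
    ∃ M, IsMatching (gad nxt lit).acc M ∧ CycleStable (gad nxt lit).acc (gad nxt lit).pref M := by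
  classical
  obtain ⟨α, hα⟩ := h
  choose j hj using hα
  set F := gad nxt lit with hF
  have hfl : ∀ x c p b, glab α j (F.f (.inl (x, c, p, b)) : W X C) = if α x = !b then S else H := by
    intro x c p b
    cases b
    · rfl
    · fin_cases p <;> rfl
  have h3 : ∀ v, glab α j (F.f v) = S ↔ glab α j v = H := by
    rintro (⟨x, c, p, b⟩ | ⟨c, k, m⟩)
    · rw [hfl]
      simp only [glab]
      cases b <;> cases α x <;> simp
    · obtain ⟨g1, g2, g3, g4, -⟩ := clab_facts (k - j c)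
      fin_cases m
      · exact g1
      · exact g2
      · change clab (k + 1 - j c) 0 = S ↔ clab (k - j c) 2 = H
        rw [fin3_h]
        exact g3
      · change clab (k + 2 - j c) 3 = S ↔ clab (k - j c) 3 = H
        rw [fin3_i]
        exact g4
  have h5 : ∀ v w, F.mid v w → (glab α j v = D ↔ glab α j w = D) := by
    have hl : ∀ x c p b, glab α j (.inl (x, c, p, b) : W X C) ≠ D := by
      intro x c p b
      simp only [glab]
      split_ifs <;> simp
    rintro (⟨x, c, p, b⟩ | ⟨c, k, m⟩) (⟨x', c', p', b'⟩ | ⟨c', k', m'⟩) h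
    · exact h.elim
    · obtain ⟨rfl, rfl, rfl, -⟩ := h
      simp only [hl, false_iff]
      exact (clab_facts _).2.2.2.2.2.2.1
    · obtain ⟨rfl, rfl, rfl, -⟩ := h
      simp only [hl, iff_false]
      exact (clab_facts _).2.2.2.2.2.2.1
    · obtain ⟨rfl, rfl, ⟨rfl, rfl⟩ | ⟨rfl, rfl⟩⟩ := h
      · exact (clab_facts _).2.2.2.2.1
      · exact (clab_facts _).2.2.2.2.1.symm
  have h6' : ∀ x c p b, F.mid (.inl (x, c, p, b)) (.inr (c, p, 1)) →
      ¬ (glab α j (.inl (x, c, p, b) : W X C) = S ∧ glab α j (.inr (c, p, 1) : W X C) = S) := by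
    rintro x c p b ⟨-, -, -, h⟩ ⟨g1, g2⟩
    have hp : p = j c := fin3_j _ _ ((clab_facts _).2.2.2.2.2.2.2.2.1 g2)
    have := hj c
    rw [← hp, h] at this
    simp only [glab] at g1
    simp only at this
    rw [this] at g1
    cases b <;> simp at g1
  have h6 : ∀ v w, F.mid v w → ¬ (glab α j v = S ∧ glab α j w = S) := by
    rintro (⟨x, c, p, b⟩ | ⟨c, k, m⟩) (⟨x', c', p', b'⟩ | ⟨c', k', m'⟩) h
    · exact h.elim
    · have h' := h
      obtain ⟨rfl, rfl, rfl, -⟩ := h
      exact h6' _ _ _ _ h'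
    · have h' := F.msymm _ _ h
      obtain ⟨rfl, rfl, rfl, -⟩ := h
      exact fun g => h6' _ _ _ _ h' ⟨g.2, g.1⟩
    · obtain ⟨rfl, rfl, ⟨rfl, rfl⟩ | ⟨rfl, rfl⟩⟩ := h
      · exact (clab_facts _).2.2.2.2.2.1
      · exact fun g => (clab_facts _).2.2.2.2.2.1 ⟨g.2, g.1⟩
  have h4 : ∀ v, glab α j v = D → ∃ w, F.mid v w := by
    rintro (⟨x, c, p, b⟩ | ⟨c, k, m⟩) h
    · exfalso
      simp only [glab] at h
      split_ifs at h
    · have g := clab_facts (k - j c)
      fin_cases m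
      · exact ⟨.inr (c, k, 3), rfl, rfl, Or.inl ⟨rfl, rfl⟩⟩
      · exact absurd h g.2.2.2.2.2.2.1
      · exact absurd h g.2.2.2.2.2.2.2.1
      · exact ⟨.inr (c, k, 0), rfl, rfl, Or.inr ⟨rfl, rfl⟩⟩
  have h8 : ∀ v, ∃ n : ℕ, glab α j (F.f^[n] v) ≠ D := by
    rintro (⟨x, c, p, b⟩ | ⟨c, k, m⟩)
    · refine ⟨0, ?_⟩
      simp only [glab, Function.iterate_zero, id]
      split_ifs <;> simp
    · have g := clab_facts (k - j c)
      fin_cases m
      · exact ⟨1, g.2.2.2.2.2.2.1⟩
      · exact ⟨0, g.2.2.2.2.2.2.1⟩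
      · exact ⟨0, g.2.2.2.2.2.2.2.1⟩
      · rcases g.2.2.2.2.2.2.2.2.2 with g | g
        · exact ⟨0, g⟩
        · refine ⟨1, ?_⟩
          change clab (k + 2 - j c) 3 ≠ D
          rw [fin3_i]
          exact g
  exact ⟨F.mat (glab α j), F.mat_isMatching _ h3 h5, F.mat_cycleStable _ h3 h4 h5 h6 h8⟩

/-- The reduction: the gadget instance has lists of length at most 3, and satisfiability of the
CNF is equivalent to the existence of a cycle stable matching and to the existence of a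
3-cycle stable matching. -/
theorem gad_hasCS {nxt : Equiv.Perm C}
    (htr : ∀ P : C → Prop, (∀ c, P c ↔ P (nxt c)) → ∀ c c', P c ↔ P c')
    {lit : C → Fin 3 → X × Bool} {l : ℕ} (hl : 3 ≤ l) :
    HasCS l (gad nxt lit).acc (gad nxt lit).pref ↔ Satisfiable lit := by
  constructor
  · rintro ⟨_, _, M, hM, hS⟩
    exact sat_of_three htr hM hS.three
  · intro h
    exact ⟨FM.isInstance _, (FM.listsLE _).mono hl, cs_of_sat h⟩

theorem gad_hasCS3 {nxt : Equiv.Perm C}
    (htr : ∀ P : C → Prop, (∀ c, P c ↔ P (nxt c)) → ∀ c c', P c ↔ P c')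
    {lit : C → Fin 3 → X × Bool} {l : ℕ} (hl : 3 ≤ l) :
    HasCS3 l (gad nxt lit).acc (gad nxt lit).pref ↔ Satisfiable lit := by
  constructor
  · rintro ⟨_, _, M, hM, hS⟩
    exact sat_of_three htr hM hS
  · intro h
    obtain ⟨M, hM, hS⟩ := cs_of_sat (nxt := nxt) h
    exact ⟨FM.isInstance _, (FM.listsLE _).mono hl, M, hM, hS.three⟩

end Pool.Agent.H92.Room
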