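import Pool.Agent.H92.Room.Lang
import Pool.Agent.H92.Room.Gadget
import Pool.Agent.H92.Desc.NPEnc
import Pool.Agent.H92.Desc.Cyc

/-!
NP-hardness of `CS(l)` and `CS₃(l)` for `l ≥ 3`.
-/

namespace Pool.Agent.H92.Room

open FirstOrder FirstOrder.Language Desc

/-! Transfer along bijections -/

section transfer

variable {U V : Type*} (e : U ≃ V) {acc : V → V → Prop} {pref : V → V → V → Prop}
  {accU : U → U → Prop} {prefU : U → U → U → Prop}
  (ha : ∀ x y, accU x y ↔ acc (e x) (e y)) (hp : ∀ x y z, prefU x y z ↔ pref (e x) (e y) (e z))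

include ha hp

theorem IsInstance.pull (h : IsInstance acc pref) : IsInstance accU prefU := by
  obtain ⟨h1, h2, h3, h4, h5, h6⟩ := h
  refine ⟨?_, ?_, ?_, ?_, ?_, ?_⟩
  · intro a b
    rw [ha, ha]
    exact h1 _ _
  · intro a
    rw [ha]
    exact h2 _
  · intro a b c
    rw [hp, ha, ha]
    exact h3 _ _ _
  · intro a b
    rw [hp]
    exact h4 _ _
  · intro a b c d
    rw [hp, hp, hp]
    exact h5 _ _ _ _
  · intro a b c
    rw [ha, ha, hp, hp]
    intro g1 g2 g3
    exact h6 _ _ _ g1 g2 (fun h => g3 (e.injective h))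

omit hp in
theorem ListsLE.pull {l : ℕ} (h : ListsLE l acc) : ListsLE l accU := by
  intro a
  refine le_trans ?_ (h (e a))
  rw [← e.injective.encard_image]
  apply Set.encard_le_encard
  rintro _ ⟨b, hb, rfl⟩
  exact (ha a b).1 hb

omit hp in
theorem IsMatching.pull {M : V → V → Prop} (h : IsMatching acc M) :
    IsMatching accU (fun x y => M (e x) (e y)) := by
  obtain ⟨h1, h2, h3⟩ := h
  refine ⟨?_, ?_, ?_⟩
  · intro a b h
    rw [ha]
    exact h1 _ _ h
  · intro a b h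
    exact h2 _ _ h
  · intro a b c h h'
    exact e.injective (h3 _ _ _ h h')

theorem Wants.push {M : V → V → Prop} {x y : U}
    (h : Wants accU prefU (fun x y => M (e x) (e y)) x y) : Wants acc pref M (e x) (e y) := by
  rcases h with ⟨h1, h2⟩ | ⟨c, h1, h2⟩
  · refine Or.inl ⟨fun c => ?_, (ha _ _).1 h2⟩
    have := h1 (e.symm c)
    simpa using this
  · exact Or.inr ⟨e c, h1, (hp _ _ _).1 h2⟩

theorem BlockingCycle.push {M : V → V → Prop} {k : ℕ}
    (h : BlockingCycle accU prefU (fun x y => M (e x) (e y)) k) : BlockingCycle acc pref M k := by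
  obtain ⟨a, ha', hw⟩ := h
  exact ⟨e ∘ a, e.injective.comp ha', fun i => Wants.push e ha hp (hw i)⟩

theorem HasCS.pull {l : ℕ} (h : HasCS l acc pref) : HasCS l accU prefU := by
  obtain ⟨h1, h2, M, h3, h4⟩ := h
  exact ⟨h1.pull e ha hp, h2.pull e ha, _, h3.pull e ha,
    fun k hk hb => h4 k hk (BlockingCycle.push e ha hp hb)⟩

theorem HasCS3.pull {l : ℕ} (h : HasCS3 l acc pref) : HasCS3 l accU prefU := by
  obtain ⟨h1, h2, M, h3, h4⟩ := h
  exact ⟨h1.pull e ha hp, h2.pull e ha, _, h3.pull e ha,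
    fun k hk hk' hb => h4 k hk hk' (BlockingCycle.push e ha hp hb)⟩

theorem hasCS_transfer {l : ℕ} : HasCS l accU prefU ↔ HasCS l acc pref := by
  refine ⟨fun h => HasCS.pull e.symm (accU := acc) (prefU := pref) ?_ ?_ h,
    fun h => h.pull e ha hp⟩
  · intro x y
    rw [ha]
    simp
  · intro x y z
    rw [hp]
    simp

theorem hasCS3_transfer {l : ℕ} : HasCS3 l accU prefU ↔ HasCS3 l acc pref := by
  refine ⟨fun h => HasCS3.pull e.symm (accU := acc) (prefU := pref) ?_ ?_ h,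
    fun h => h.pull e ha hp⟩
  · intro x y
    rw [ha]
    simp
  · intro x y z
    rw [hp]
    simp

end transfer

/-! The universe of the interpreted instance -/

variable {σ : FirstOrder.Language.{0, 0}} {N : ℕ} {K J : Type}

/-- sorts -/
abbrev HS (K J : Type) := (K × J × Fin 3 × Bool) ⊕ (J × Fin 3 × Fin 4)

/-- coordinates -/
def HCoord (N : ℕ) : HS K J → Type
  | .inl _ => Fin N ⊕ Fin N
  | .inr _ => Fin N

instance (s : HS K J) : Finite (HCoord N s) := by
  rcases s with s | s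
  · exact inferInstanceAs (Finite (Fin N ⊕ Fin N))
  · exact inferInstanceAs (Finite (Fin N))

/-- decoding vertices -/
def hdec {A : Type} : (Σ s : HS K J, (HCoord N s → A)) → W (K × (Fin N → A)) (J × (Fin N → A))
  | ⟨.inl (i, j, p, b), w⟩ =>
      .inl ((i, fun k => w (Sum.inl k : Fin N ⊕ Fin N)), (j, fun k => w (Sum.inr k : Fin N ⊕ Fin N)),
        p, b)
  | ⟨.inr (j, k, m), w⟩ => .inr ((j, w), k, m)

/-- encoding vertices -/
def henc {A : Type} : W (K × (Fin N → A)) (J × (Fin N → A)) → (Σ s : HS K J, (HCoord N s → A))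
  | .inl ((i, v), (j, w), p, b) => ⟨.inl (i, j, p, b), (Sum.elim v w : Fin N ⊕ Fin N → A)⟩
  | .inr ((j, w), k, m) => ⟨.inr (j, k, m), w⟩

def hequiv {A : Type} :
    (Σ s : HS K J, (HCoord N s → A)) ≃ W (K × (Fin N → A)) (J × (Fin N → A)) where
  toFun := hdec
  invFun := henc
  left_inv := by
    rintro ⟨⟨i, j, p, b⟩ | ⟨j, k, m⟩, w⟩
    · simp only [hdec, henc]
      congr 1
      funext x
      rcases x with x | x <;> rfl
    · rfl
  right_inv := by
    rintro (⟨⟨i, v⟩, ⟨j, w⟩, p, b⟩ | ⟨⟨j, w⟩, k, m⟩) <;> rfl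

/-- the literals of the CNF -/
def litC (lit : J → Fin 3 → LitF σ N K) (c : (ordCls σ).ι) :
    J × (Fin N → (ordCls σ).car c) → Fin 3 → (K × (Fin N → (ordCls σ).car c)) × Bool :=
  fun x p => lit x.1 p c x.2

theorem inl5 {A B C D E F : Type} (i i' : A) (v v' : B) (x x' : C) (p p' : D) (b b' : E) :
    ((Sum.inl ((i', v'), x', p', b') : ((A × B) × C × D × E) ⊕ F) =
      Sum.inl ((i, v), x, p, b)) ↔ i' = i ∧ v' = v ∧ x' = x ∧ p' = p ∧ b' = b := by
  simp [and_assoc]

variable [LinearOrder J] [Finite J] [Nonempty J]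

/-- the gadget over the ordered structure `c` -/
noncomputable def gadC (lit : J → Fin 3 → LitF σ N K) (c : (ordCls σ).ι) :
    FM (W (K × (Fin N → (ordCls σ).car c)) (J × (Fin N → (ordCls σ).car c))) :=
  gad (nxtT N J c) (litC lit c)

theorem udef_f (lit : J → Fin 3 → LitF σ N K) {α : Type} (s s' : HS K J)
    (g : HCoord N s → α) (h : HCoord N s' → α) :
    UDef (ordCls σ) (fun c (u : α → (ordCls σ).car c) =>
      hdec ⟨s', u ∘ h⟩ = (gadC lit c).f (hdec ⟨s, u ∘ g⟩)) := by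
  rcases s with ⟨i, j, p, b⟩ | ⟨j, k, m⟩ <;> rcases s' with ⟨i', j', p', b'⟩ | ⟨j', k', m'⟩
  · have h1 : ∀ (P : Prop), UDef (ordCls σ) (fun c (u : α → (ordCls σ).car c) =>
        (i' = i ∧ j' = j ∧ P) ∧
        (u ∘ (fun k : Fin N => h (Sum.inl k : Fin N ⊕ Fin N)) =
          u ∘ (fun k : Fin N => g (Sum.inl k : Fin N ⊕ Fin N))) ∧
        (u ∘ (fun k : Fin N => h (Sum.inr k : Fin N ⊕ Fin N)) =
          u ∘ (fun k : Fin N => g (Sum.inr k : Fin N ⊕ Fin N)))) := fun P =>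
      (UDef.const _).and ((UDef.eqT _ _).and (UDef.eqT _ _))
    cases b with
    | false =>
      refine (h1 (p' = p ∧ b' = true)).congr fun c u => ?_
      change _ ↔ (Sum.inl ((i', u ∘ (fun k : Fin N => h (Sum.inl k : Fin N ⊕ Fin N))),
        (j', u ∘ (fun k : Fin N => h (Sum.inr k : Fin N ⊕ Fin N))), p', b') :
        W (K × (Fin N → (ordCls σ).car c)) (J × (Fin N → (ordCls σ).car c))) =
        Sum.inl ((i, u ∘ (fun k : Fin N => g (Sum.inl k : Fin N ⊕ Fin N))),
        (j, u ∘ (fun k : Fin N => g (Sum.inr k : Fin N ⊕ Fin N))), p, true)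
      simp only [Sum.inl.injEq, Prod.mk.injEq]
      tauto
    | true =>
      fin_cases p
      · refine (h1 (p' = 1 ∧ b' = false)).congr fun c u => ?_
        change _ ↔ (Sum.inl ((i', u ∘ (fun k : Fin N => h (Sum.inl k : Fin N ⊕ Fin N))),
          (j', u ∘ (fun k : Fin N => h (Sum.inr k : Fin N ⊕ Fin N))), p', b') :
          W (K × (Fin N → (ordCls σ).car c)) (J × (Fin N → (ordCls σ).car c))) =
          Sum.inl ((i, u ∘ (fun k : Fin N => g (Sum.inl k : Fin N ⊕ Fin N))),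
          (j, u ∘ (fun k : Fin N => g (Sum.inr k : Fin N ⊕ Fin N))), 1, false)
        simp only [Sum.inl.injEq, Prod.mk.injEq]
        tauto
      · refine (h1 (p' = 2 ∧ b' = false)).congr fun c u => ?_
        change _ ↔ (Sum.inl ((i', u ∘ (fun k : Fin N => h (Sum.inl k : Fin N ⊕ Fin N))),
          (j', u ∘ (fun k : Fin N => h (Sum.inr k : Fin N ⊕ Fin N))), p', b') :
          W (K × (Fin N → (ordCls σ).car c)) (J × (Fin N → (ordCls σ).car c))) =
          Sum.inl ((i, u ∘ (fun k : Fin N => g (Sum.inl k : Fin N ⊕ Fin N))),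
          (j, u ∘ (fun k : Fin N => g (Sum.inr k : Fin N ⊕ Fin N))), 2, false)
        simp only [Sum.inl.injEq, Prod.mk.injEq]
        tauto
      · refine ((UDef.const (i' = i ∧ p' = 0 ∧ b' = false)).and
          ((UDef.eqT (𝒞 := ordCls σ) (fun k : Fin N => h (Sum.inl k : Fin N ⊕ Fin N))
            (fun k : Fin N => g (Sum.inl k : Fin N ⊕ Fin N))).and
          (UDef.nxt (σ := σ) j j' (fun k : Fin N => g (Sum.inr k : Fin N ⊕ Fin N))
            (fun k : Fin N => h (Sum.inr k : Fin N ⊕ Fin N))))).congr fun c u => ?_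
        change _ ↔ (Sum.inl ((i', u ∘ (fun k : Fin N => h (Sum.inl k : Fin N ⊕ Fin N))),
          (j', u ∘ (fun k : Fin N => h (Sum.inr k : Fin N ⊕ Fin N))), p', b') :
          W (K × (Fin N → (ordCls σ).car c)) (J × (Fin N → (ordCls σ).car c))) =
          Sum.inl ((i, u ∘ (fun k : Fin N => g (Sum.inl k : Fin N ⊕ Fin N))),
          nxtT N J c (j, u ∘ (fun k : Fin N => g (Sum.inr k : Fin N ⊕ Fin N))), 0, false)
        rw [inl5]
        tauto
  · refine (UDef.const False).congr fun c u => ?_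
    simp only [false_iff]
    cases b with
    | false => exact fun h => by cases h
    | true => fin_cases p <;> exact fun h => by cases h
  · refine (UDef.const False).congr fun c u => ?_
    simp only [false_iff]
    fin_cases m <;> exact fun h => by cases h
  · have h1 : ∀ (P : Prop), UDef (ordCls σ) (fun c (u : α → (ordCls σ).car c) =>
        (j' = j ∧ P) ∧
        (u ∘ (fun k : Fin N => h k) = u ∘ (fun k : Fin N => g k))) := fun P =>
      (UDef.const _).and (UDef.eqT _ _)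
    fin_cases m
    · refine (h1 (k' = k ∧ m' = 1)).congr fun c u => ?_
      change _ ↔ (Sum.inr ((j', u ∘ (fun k : Fin N => h k)), k', m') :
        W (K × (Fin N → (ordCls σ).car c)) (J × (Fin N → (ordCls σ).car c))) =
        Sum.inr ((j, u ∘ (fun k : Fin N => g k)), k, 1)
      simp only [Sum.inr.injEq, Prod.mk.injEq]
      tauto
    · refine (h1 (k' = k ∧ m' = 2)).congr fun c u => ?_
      change _ ↔ (Sum.inr ((j', u ∘ (fun k : Fin N => h k)), k', m') :
        W (K × (Fin N → (ordCls σ).car c)) (J × (Fin N → (ordCls σ).car c))) =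
        Sum.inr ((j, u ∘ (fun k : Fin N => g k)), k, 2)
      simp only [Sum.inr.injEq, Prod.mk.injEq]
      tauto
    · refine (h1 (k' = k + 1 ∧ m' = 0)).congr fun c u => ?_
      change _ ↔ (Sum.inr ((j', u ∘ (fun k : Fin N => h k)), k', m') :
        W (K × (Fin N → (ordCls σ).car c)) (J × (Fin N → (ordCls σ).car c))) =
        Sum.inr ((j, u ∘ (fun k : Fin N => g k)), k + 1, 0)
      simp only [Sum.inr.injEq, Prod.mk.injEq]
      tauto
    · refine (h1 (k' = k + 2 ∧ m' = 3)).congr fun c u => ?_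
      change _ ↔ (Sum.inr ((j', u ∘ (fun k : Fin N => h k)), k', m') :
        W (K × (Fin N → (ordCls σ).car c)) (J × (Fin N → (ordCls σ).car c))) =
        Sum.inr ((j, u ∘ (fun k : Fin N => g k)), k + 2, 3)
      simp only [Sum.inr.injEq, Prod.mk.injEq]
      tauto

theorem udef_mid {lit : J → Fin 3 → LitF σ N K} (hlit : ∀ j p, DefLit (lit j p)) {α : Type}
    (s s' : HS K J) (g : HCoord N s → α) (h : HCoord N s' → α) :
    UDef (ordCls σ) (fun c (u : α → (ordCls σ).car c) =>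
      (gadC lit c).mid (hdec ⟨s, u ∘ g⟩) (hdec ⟨s', u ∘ h⟩)) := by
  rcases s with ⟨i, j, p, b⟩ | ⟨j, k, m⟩ <;> rcases s' with ⟨i', j', p', b'⟩ | ⟨j', k', m'⟩
  · exact (UDef.const False).congr fun c u => Iff.rfl
  · refine ((UDef.const (m' = 1 ∧ j' = j ∧ k' = p)).and
      ((UDef.eqT (𝒞 := ordCls σ) (fun k : Fin N => h k)
        (fun k : Fin N => g (Sum.inr k : Fin N ⊕ Fin N))).and
      ((hlit j p).at (fun k : Fin N => g (Sum.inr k : Fin N ⊕ Fin N))
        (fun k : Fin N => g (Sum.inl k : Fin N ⊕ Fin N)) i (!b)))).congr fun c u => ?_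
    change _ ↔ (m' = 1 ∧ (j', u ∘ (fun k : Fin N => h k)) =
      (j, u ∘ (fun k : Fin N => g (Sum.inr k : Fin N ⊕ Fin N))) ∧ k' = p ∧
      lit j p c (u ∘ (fun k : Fin N => g (Sum.inr k : Fin N ⊕ Fin N))) =
      ((i, u ∘ (fun k : Fin N => g (Sum.inl k : Fin N ⊕ Fin N))), !b))
    have e := Prod.mk.injEq j' (u ∘ (fun k : Fin N => h k)) j
      (u ∘ (fun k : Fin N => g (Sum.inr k : Fin N ⊕ Fin N)))
    rw [e]
    tauto
  · refine ((UDef.const (m = 1 ∧ j = j' ∧ k = p')).and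
      ((UDef.eqT (𝒞 := ordCls σ) (fun k : Fin N => g k)
        (fun k : Fin N => h (Sum.inr k : Fin N ⊕ Fin N))).and
      ((hlit j' p').at (fun k : Fin N => h (Sum.inr k : Fin N ⊕ Fin N))
        (fun k : Fin N => h (Sum.inl k : Fin N ⊕ Fin N)) i' (!b')))).congr fun c u => ?_
    change _ ↔ (m = 1 ∧ (j, u ∘ (fun k : Fin N => g k)) =
      (j', u ∘ (fun k : Fin N => h (Sum.inr k : Fin N ⊕ Fin N))) ∧ k = p' ∧
      lit j' p' c (u ∘ (fun k : Fin N => h (Sum.inr k : Fin N ⊕ Fin N))) =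
      ((i', u ∘ (fun k : Fin N => h (Sum.inl k : Fin N ⊕ Fin N))), !b'))
    have e := Prod.mk.injEq j (u ∘ (fun k : Fin N => g k)) j'
      (u ∘ (fun k : Fin N => h (Sum.inr k : Fin N ⊕ Fin N)))
    rw [e]
    tauto
  · refine ((UDef.const (j' = j ∧ k' = k ∧ ((m = 0 ∧ m' = 3) ∨ (m = 3 ∧ m' = 0)))).and
      (UDef.eqT (𝒞 := ordCls σ) (fun k : Fin N => h k) (fun k : Fin N => g k))).congr
      fun c u => ?_
    change _ ↔ ((j', u ∘ (fun k : Fin N => h k)) = (j, u ∘ (fun k : Fin N => g k)) ∧ k' = k ∧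
      ((m = 0 ∧ m' = 3) ∨ (m = 3 ∧ m' = 0)))
    rw [Prod.mk.injEq]
    tauto

/-- acceptability over the coded universe -/
def accH (lit : J → Fin 3 → LitF σ N K) (c : (ordCls σ).ι)
    (x y : Σ s : HS K J, (HCoord N s → (ordCls σ).car c)) : Prop :=
  (gadC lit c).acc (hdec x) (hdec y)

/-- preferences over the coded universe -/
def prefH (lit : J → Fin 3 → LitF σ N K) (c : (ordCls σ).ι)
    (x y z : Σ s : HS K J, (HCoord N s → (ordCls σ).car c)) : Prop :=
  (gadC lit c).pref (hdec x) (hdec y) (hdec z)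

theorem udef_acc {lit : J → Fin 3 → LitF σ N K} (hlit : ∀ j p, DefLit (lit j p)) {α : Type}
    (s s' : HS K J) (g : HCoord N s → α) (h : HCoord N s' → α) :
    UDef (ordCls σ) (fun c (u : α → (ordCls σ).car c) =>
      accH lit c ⟨s, u ∘ g⟩ ⟨s', u ∘ h⟩) :=
  (udef_f lit s s' g h).or ((udef_f lit s' s h g).or (udef_mid hlit s s' g h))

theorem udef_pref {lit : J → Fin 3 → LitF σ N K} (hlit : ∀ j p, DefLit (lit j p)) {α : Type}
    (s s' s'' : HS K J) (g : HCoord N s → α) (h : HCoord N s' → α) (h' : HCoord N s'' → α) :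
    UDef (ordCls σ) (fun c (u : α → (ordCls σ).car c) =>
      prefH lit c ⟨s, u ∘ g⟩ ⟨s', u ∘ h⟩ ⟨s'', u ∘ h'⟩) :=
  ((udef_f lit s s' g h).and ((udef_mid hlit s s'' g h').or (udef_f lit s'' s h' g))).or
    ((udef_mid hlit s s' g h).and (udef_f lit s'' s h' g))

/-- The reduction as a first-order interpretation. -/
theorem exists_interp {lit : J → Fin 3 → LitF σ N K} (hlit : ∀ j p, DefLit (lit j p))
    [Finite K] :
    ∃ I : Interp (σ.sum FirstOrder.Language.order) roomLang,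
      ∀ (A : FinStr σ) (o : LinearOrder A.carrier) (l : ℕ), 3 ≤ l →
        ((CS l (I.image roomLang_rel A o) ↔ ∃ γ, SatF lit ⟨A, o⟩ γ) ∧
        (CS3 l (I.image roomLang_rel A o) ↔ ∃ γ, SatF lit ⟨A, o⟩ γ)) := by
  have h1 : ∀ s : Fin 2 → HS K J, ∃ φ : (σ.sum FirstOrder.Language.order).Formula
      (Σ i : Fin 2, HCoord N (s i)), ∀ (c : (ordCls σ).ι) v,
      @Formula.Realize _ ((ordCls σ).car c) ((ordCls σ).str c) _ φ v ↔
        accH lit c ⟨s 0, v ∘ (fun k => ⟨0, k⟩)⟩ ⟨s 1, v ∘ (fun k => ⟨1, k⟩)⟩ := fun s =>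
    udef_acc hlit (s 0) (s 1) _ _
  have h2 : ∀ s : Fin 3 → HS K J, ∃ φ : (σ.sum FirstOrder.Language.order).Formula
      (Σ i : Fin 3, HCoord N (s i)), ∀ (c : (ordCls σ).ι) v,
      @Formula.Realize _ ((ordCls σ).car c) ((ordCls σ).str c) _ φ v ↔
        prefH lit c ⟨s 0, v ∘ (fun k => ⟨0, k⟩)⟩ ⟨s 1, v ∘ (fun k => ⟨1, k⟩)⟩
          ⟨s 2, v ∘ (fun k => ⟨2, k⟩)⟩ := fun s =>
    udef_pref hlit (s 0) (s 1) (s 2) _ _ _
  choose φ1 hφ1 using h1
  choose φ2 hφ2 using h2
  let I : Interp (σ.sum FirstOrder.Language.order) roomLang :=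
    { S := HS K J
      fin := inferInstance
      ne := inferInstance
      Coord := HCoord N
      cfin := inferInstance
      form := fun {n} (R : RoomRel n) => match n, R with
        | _, RoomRel.acc => fun s => φ1 s
        | _, RoomRel.pref => fun s => φ2 s }
  refine ⟨I, fun A o l hl => ?_⟩
  let c : (ordCls σ).ι := ⟨A, o⟩
  have ha : ∀ x y, accOf (I.image roomLang_rel A o) x y ↔
      (gadC lit c).acc ((hequiv (K := K) (J := J) (N := N)) x) (hequiv y) := by
    intro x y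
    exact hφ1 (fun i => (![x, y] i).1) c (fun p => (![x, y] p.1).2 p.2)
  have hp : ∀ x y z, prefOf (I.image roomLang_rel A o) x y z ↔
      (gadC lit c).pref ((hequiv (K := K) (J := J) (N := N)) x) (hequiv y) (hequiv z) := by
    intro x y z
    exact hφ2 (fun i => (![x, y, z] i).1) c (fun p => (![x, y, z] p.1).2 p.2)
  have hsat : Satisfiable (litC lit c) ↔ ∃ γ, SatF lit c γ := by
    constructor
    · rintro ⟨γ, hγ⟩
      exact ⟨γ, fun j v => hγ (j, v)⟩
    · rintro ⟨γ, hγ⟩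
      exact ⟨γ, fun x => hγ x.1 x.2⟩
  constructor
  · rw [← hsat]
    exact (hasCS_transfer _ ha hp).trans (gad_hasCS (nxtT_trans c) hl)
  · rw [← hsat]
    exact (hasCS3_transfer _ ha hp).trans (gad_hasCS3 (nxtT_trans c) hl)

omit [LinearOrder J] [Finite J] [Nonempty J] in
theorem exists_interp' {lit : J → Fin 3 → LitF σ N K} (hlit : ∀ j p, DefLit (lit j p))
    [Finite K] [Finite J] [Nonempty J] :
    ∃ I : Interp (σ.sum FirstOrder.Language.order) roomLang,
      ∀ (A : FinStr σ) (o : LinearOrder A.carrier) (l : ℕ), 3 ≤ l →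
        ((CS l (I.image roomLang_rel A o) ↔ ∃ γ, SatF lit ⟨A, o⟩ γ) ∧
        (CS3 l (I.image roomLang_rel A o) ↔ ∃ γ, SatF lit ⟨A, o⟩ γ)) := by
  obtain ⟨n, ⟨e⟩⟩ := Finite.exists_equiv_fin J
  letI : LinearOrder J := LinearOrder.lift' e e.injective
  exact exists_interp hlit

theorem hard_CS (l : ℕ) (hl : 3 ≤ l) : NPHard roomLang_rel (CS l) := by
  intro σ hσ K' hK'
  obtain ⟨N, K, J, hK, hJ, hJ', lit, hlit, h⟩ := np_cnf hσ.1 hK'
  obtain ⟨I, hI⟩ := exists_interp' hlit
  refine ⟨I, fun A o => ?_⟩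
  rw [(hI A o l hl).1]
  exact h ⟨A, o⟩

theorem hard_CS3 (l : ℕ) (hl : 3 ≤ l) : NPHard roomLang_rel (CS3 l) := by
  intro σ hσ K' hK'
  obtain ⟨N, K, J, hK, hJ, hJ', lit, hlit, h⟩ := np_cnf hσ.1 hK'
  obtain ⟨I, hI⟩ := exists_interp' hlit
  refine ⟨I, fun A o => ?_⟩
  rw [(hI A o l hl).2]
  exact h ⟨A, o⟩

end Pool.Agent.H92.Room
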