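import Pool.Agent.H92.Room.Two

/-!
Membership in P for lists of length at most 2, by a least fixed point.
-/

namespace Pool.Agent.H92.Room

open FirstOrder FirstOrder.Language Desc

/-- all expansions of finite ordered instances by a binary relation -/
def pCls : Cls ((roomLang.sum FirstOrder.Language.order).sum (oneRel 2)) where
  ι := Σ' (A : FinStr roomLang) (_ : LinearOrder A.carrier), Set (Fin 2 → A.carrier)
  car c := c.1.carrier
  str c := @sumStructure (roomLang.sum FirstOrder.Language.order) (oneRel 2) c.1.carrier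
    (ordStr c.1.str c.2.1) (oneStr c.2.2)

def accP (c : pCls.ι) (a b : pCls.car c) : Prop := accOf c.1 a b
def prefP (c : pCls.ι) (a b d : pCls.car c) : Prop := prefOf c.1 a b d
def xP (c : pCls.ι) (a b : pCls.car c) : Prop := ![a, b] ∈ c.2.2

theorem udef_accP {α : Type} (a b : α) : UDef pCls (fun c v => accP c (v a) (v b)) :=
  (UDef.rel (𝒞 := pCls) (Sum.inl (Sum.inl RoomRel.acc)) ![a, b]).congr fun c v => by
    rw [comp_vec2]
    exact Iff.rfl

theorem udef_prefP {α : Type} (a b d : α) :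
    UDef pCls (fun c v => prefP c (v a) (v b) (v d)) :=
  (UDef.rel (𝒞 := pCls) (Sum.inl (Sum.inl RoomRel.pref)) ![a, b, d]).congr fun c v => by
    rw [comp_vec3]
    exact Iff.rfl

theorem udef_xP {α : Type} (a b : α) : UDef pCls (fun c v => xP c (v a) (v b)) :=
  (UDef.rel (𝒞 := pCls) (Sum.inr OneRel.sym) ![a, b]).congr fun c v => by
    rw [comp_vec2]
    exact Iff.rfl

theorem udef_stepP {α : Type} (a b : α) :
    UDef pCls (fun c v => Step (prefP c) (v a) (v b)) := by
  refine UDef.and ?_ ?_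
  · exact UDef.ex1 (P := fun c v x => prefP c (v a) (v b) x)
      (udef_prefP (Sum.inl a) (Sum.inl b) (Sum.inr ()))
  · exact UDef.ex1 (P := fun c v x => prefP c (v b) x (v a))
      (udef_prefP (Sum.inl b) (Sum.inr ()) (Sum.inl a))

/-- the operator whose least fixed point is the relation `Odd` -/
def oddOp {A : Type} (R : A → A → Prop) (X : Set (Fin 2 → A)) : Set (Fin 2 → A) :=
  {v | R (v 0) (v 1) ∨ ∃ y z, ![v 0, y] ∈ X ∧ R y z ∧ R z (v 1)}

theorem oddOp_mono {A : Type} (R : A → A → Prop) : Monotone (oddOp R) := by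
  intro X Y h v hv
  rcases hv with hv | ⟨y, z, h1, h2, h3⟩
  · exact Or.inl hv
  · exact Or.inr ⟨y, z, h h1, h2, h3⟩

theorem lfp_oddOp {A : Type} (R : A → A → Prop) (x y : A) :
    ![x, y] ∈ lfp (oddOp R) ↔ Odd R x y := by
  constructor
  · intro h
    have := h {v | Odd R (v 0) (v 1)} (by
      intro v hv
      rcases hv with hv | ⟨y, z, h1, h2, h3⟩
      · exact Odd.one hv
      · exact Odd.step h1 h2 h3)
    exact this
  · intro h Y hY
    induction h with
    | one h => exact hY (Or.inl h)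
    | @step y z w h h1 h2 ih => exact hY (Or.inr ⟨y, z, ih, h1, h2⟩)

theorem inP_of (K : Prob roomLang) (l : ℕ)
    (h : ∀ A : FinStr roomLang, K A ↔ IsInstance (accOf A) (prefOf A) ∧ ListsLE l (accOf A) ∧
      ¬ ∃ v, Odd (Step (prefOf A)) v v) : InP K := by
  have h1 : UDef pCls (fun c (v : Fin 2 → pCls.car c) =>
      Step (prefP c) (v 0) (v 1) ∨ ∃ y z, xP c (v 0) y ∧ Step (prefP c) y z ∧
        Step (prefP c) z (v 1)) := by
    refine UDef.or (udef_stepP 0 1) ?_
    refine UDef.ex1 (P := fun c v y => ∃ z, xP c (v 0) y ∧ Step (prefP c) y z ∧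
        Step (prefP c) z (v 1)) ?_
    refine UDef.ex1 (P := fun c v z => xP c (v (Sum.inl 0)) (v (Sum.inr ())) ∧
      Step (prefP c) (v (Sum.inr ())) z ∧ Step (prefP c) z (v (Sum.inl 1))) ?_
    exact (udef_xP _ _).and ((udef_stepP _ _).and (udef_stepP _ _))
  have h2 : UDef pCls (fun c (_ : Empty → pCls.car c) =>
      IsInstance (accP c) (prefP c) ∧ ListsLE l (accP c) ∧ ¬ ∃ v, xP c v v) := by
    refine (udef_isInstance udef_accP udef_prefP).and ((udef_listsLE udef_accP l).and
      (UDef.not ?_))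
    exact UDef.ex1 (P := fun c v x => xP c x x) (udef_xP (Sum.inr ()) (Sum.inr ()))
  obtain ⟨ψ, hψ⟩ := h1
  obtain ⟨φ, hφ⟩ := h2
  refine ⟨2, ψ, φ, fun A o => ?_⟩
  have hop : lfpOp ψ (ordStr A.str o) = oddOp (Step (prefOf A)) := by
    funext X
    ext v
    exact hψ ⟨A, o, X⟩ v
  rw [hop]
  refine ⟨oddOp_mono _, ?_⟩
  rw [h]
  have := hφ ⟨A, o, lfp (oddOp (Step (prefOf A)))⟩ default
  refine Iff.trans ?_ this.symm
  refine and_congr Iff.rfl (and_congr Iff.rfl (not_congr (exists_congr fun v => ?_)))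
  exact (lfp_oddOp _ v v).symm

theorem inP_CS (l : ℕ) (hl : l ≤ 2) : InP (CS l) :=
  inP_of _ l fun A => by
    have := A.fin
    exact hasCS_two hl

theorem inP_CS3 (l : ℕ) (hl : l ≤ 2) : InP (CS3 l) :=
  inP_of _ l fun A => by
    have := A.fin
    exact hasCS3_two hl

end Pool.Agent.H92.Room
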