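import Pool.Agent.H92.Desc.Defs
import Pool.Agent.H92.Room.Defs

/-!
The decision problems as classes of finite structures.
-/

namespace Pool.Agent.H92.Room

open FirstOrder FirstOrder.Language Desc

/-- Relation symbols: the binary symbol `acc` and the ternary symbol `pref`. -/
inductive RoomRel : ℕ → Type
  | acc : RoomRel 2
  | pref : RoomRel 3

/-- The vocabulary of roommates instances. -/
def roomLang : FirstOrder.Language.{0, 0} := ⟨fun _ => Empty, RoomRel⟩

theorem roomLang_rel : roomLang.IsRelational := fun _ => inferInstanceAs (IsEmpty Empty)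

/-- `acc a b`: `a` finds `b` acceptable. -/
def accOf (A : FinStr roomLang) (a b : A.carrier) : Prop :=
  @Structure.RelMap roomLang A.carrier A.str 2 RoomRel.acc ![a, b]

/-- `pref a b c`: `a` prefers `b` to `c`. -/
def prefOf (A : FinStr roomLang) (a b c : A.carrier) : Prop :=
  @Structure.RelMap roomLang A.carrier A.str 3 RoomRel.pref ![a, b, c]

/-- The decision problem `CS(l)`. -/
def CS (l : ℕ) : Prob roomLang := fun A => HasCS l (accOf A) (prefOf A)

/-- The decision problem `CS₃(l)`. -/
def CS3 (l : ℕ) : Prob roomLang := fun A => HasCS3 l (accOf A) (prefOf A)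

end Pool.Agent.H92.Room
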