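import Pool.Agent.H92.Room.Lang
import Pool.Agent.H92.Desc.UDef
import Pool.Agent.H92.Room.Core

/-!
Membership in NP: cycle stability of a matching as an existential second-order property.
-/

namespace Pool.Agent.H92.Room

open FirstOrder FirstOrder.Language Desc

/-! Combinatorial reformulations -/

section comb

variable {V : Type*} {acc : V → V → Prop} {pref : V → V → V → Prop} {M : V → V → Prop}

theorem Wants.ne (h : IsInstance acc pref) {a b : V} (hab : Wants acc pref M a b) : a ≠ b := by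
  rintro rfl
  rcases hab with ⟨_, h1⟩ | ⟨c, _, h1⟩
  · exact h.2.1 _ h1
  · exact h.2.1 _ (h.2.2.1 _ _ _ h1).1

theorem listsLE_iff {l : ℕ} : ListsLE l acc ↔
    ∀ a, ∀ b : Fin (l + 1) → V, (∀ i, acc a (b i)) → ∃ i j, i ≠ j ∧ b i = b j := by
  constructor
  · intro h a b hb
    by_contra hcon
    push Not at hcon
    have hinj : Function.Injective b := by
      intro i j hij
      by_contra hne
      exact hcon i j hne hij
    have h1 : (Set.range b).encard ≤ l := by
      refine (Set.encard_le_encard ?_).trans (h a)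
      rintro _ ⟨i, rfl⟩
      exact hb i
    rw [← Set.image_univ, hinj.encard_image, Set.encard_univ] at h1
    simp only [ENat.card_eq_coe_fintype_card, Fintype.card_fin] at h1
    have : l + 1 ≤ l := by exact_mod_cast h1
    omega
  · intro h a
    by_contra hcon
    rw [not_le] at hcon
    have h1 : ((l + 1 : ℕ) : ℕ∞) ≤ {b | acc a b}.encard := by
      push_cast
      exact Order.add_one_le_of_lt hcon
    obtain ⟨t, ht, hc⟩ := Set.exists_subset_encard_eq h1
    have hfin : t.Finite := Set.finite_of_encard_eq_coe hc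
    have hcard : hfin.toFinset.card = l + 1 := by
      have := hfin.encard_eq_coe_toFinset_card
      rw [hc] at this
      exact_mod_cast this.symm
    let e := (Finset.equivFinOfCardEq hcard).symm
    obtain ⟨i, j, hij, he⟩ := h a (fun i => (e i).1) (fun i => by
      have := (e i).2
      rw [Set.Finite.mem_toFinset] at this
      exact ht this)
    exact hij (e.injective (Subtype.ext he))

theorem exists_cycle_of_transGen [Finite V] {W : V → V → Prop} (hirr : ∀ a, ¬ W a a) {a : V}
    (h : Relation.TransGen W a a) :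
    ∃ k, 2 ≤ k ∧ ∃ c : ZMod k → V, Function.Injective c ∧ ∀ i, W (c i) (c (i + 1)) := by
  classical
  let S := {v : V // Relation.TransGen W v v}
  have hsucc : ∀ v : S, ∃ w : S, W v.1 w.1 := by
    rintro ⟨v, hv⟩
    obtain ⟨w, hvw, hwv⟩ := Relation.TransGen.head'_iff.1 hv
    refine ⟨⟨w, ?_⟩, hvw⟩
    exact Relation.TransGen.tail' hwv hvw
  choose g hg using hsucc
  have hper : ∃ x : S, x ∈ Function.periodicPts g := by
    let x0 : S := ⟨a, h⟩
    obtain ⟨m, n, hmn, hne⟩ := Finite.exists_ne_map_eq_of_infinite (fun n : ℕ => g^[n] x0)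
    wlog hlt : m < n generalizing m n
    · exact this n m hmn.symm hne.symm (lt_of_le_of_ne (not_lt.1 hlt) hmn.symm)
    refine ⟨g^[m] x0, ?_⟩
    rw [Function.mem_periodicPts]
    refine ⟨n - m, by omega, ?_⟩
    unfold Function.IsPeriodicPt Function.IsFixedPt
    rw [← Function.iterate_add_apply, Nat.sub_add_cancel hlt.le]
    exact hne.symm
  obtain ⟨x, hx⟩ := hper
  set k := Function.minimalPeriod g x with hk
  have hkpos : 0 < k := Function.minimalPeriod_pos_of_mem_periodicPts hx
  have hk1 : k ≠ 1 := by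
    intro h1
    have := Function.iterate_minimalPeriod (f := g) (x := x)
    rw [← hk, h1] at this
    have h2 := hg x
    simp only [Function.iterate_one] at this
    rw [this] at h2
    exact hirr _ h2
  refine ⟨k, by omega, fun i => (g^[i.val] x).1, ?_, ?_⟩
  · have : NeZero k := ⟨hkpos.ne'⟩
    intro i j hij
    have h1 : g^[i.val] x = g^[j.val] x := Subtype.ext hij
    have := Function.iterate_injOn_Iio_minimalPeriod (f := g) (x := x)
      (show i.val ∈ Set.Iio _ from ZMod.val_lt i) (show j.val ∈ Set.Iio _ from ZMod.val_lt j) h1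
    exact ZMod.val_injective k this
  · have : NeZero k := ⟨hkpos.ne'⟩
    have : Fact (1 < k) := ⟨by omega⟩
    intro i
    have h1 : g^[(i + 1).val] x = g (g^[i.val] x) := by
      have h2 : g^[(i.val + 1) % k] x = g^[i.val + 1] x :=
        Function.iterate_mod_minimalPeriod_eq
      rw [ZMod.val_add, ZMod.val_one, h2, Function.iterate_succ_apply']
    beta_reduce
    rw [h1]
    exact hg _

theorem cycleStable_iff [Finite V] (h : IsInstance acc pref) : CycleStable acc pref M ↔
    ∃ T : V → V → Prop, (∀ a b, Wants acc pref M a b → T a b) ∧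
      (∀ a b c, T a b → T b c → T a c) ∧ ∀ a, ¬ T a a := by
  constructor
  · intro hS
    refine ⟨Relation.TransGen (Wants acc pref M), fun a b hab => Relation.TransGen.single hab,
      fun a b c h1 h2 => h1.trans h2, fun a ha => ?_⟩
    obtain ⟨k, hk, c, hc⟩ := exists_cycle_of_transGen (fun a haa => (Wants.ne h haa) rfl) ha
    exact hS k hk ⟨c, hc⟩
  · rintro ⟨T, h1, h2, h3⟩ k hk ⟨c, _, hc⟩
    have : NeZero k := ⟨by omega⟩
    have key : ∀ n : ℕ, T (c 0) (c ((n + 1 : ℕ) : ZMod k)) := by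
      intro n
      induction n with
      | zero => simpa using h1 _ _ (hc 0)
      | succ n ih =>
        refine h2 _ _ _ ih ?_
        have := h1 _ _ (hc ((n + 1 : ℕ) : ZMod k))
        push_cast at this ⊢
        exact this
    have := key (k - 1)
    rw [Nat.sub_add_cancel (by omega), ZMod.natCast_self] at this
    exact h3 _ this

theorem threeCycleStable_iff (h : IsInstance acc pref) : ThreeCycleStable acc pref M ↔
    (∀ a b, ¬ (Wants acc pref M a b ∧ Wants acc pref M b a)) ∧
      ∀ a b c, ¬ (Wants acc pref M a b ∧ Wants acc pref M b c ∧ Wants acc pref M c a) := by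
  constructor
  · intro hS
    refine ⟨fun a b hab => hS.noPair (Wants.ne h hab.1) hab.1 hab.2, fun a b c habc => ?_⟩
    exact hS.noTriple (Wants.ne h habc.1) (Wants.ne h habc.2.1) (Wants.ne h habc.2.2).symm
      habc.1 habc.2.1 habc.2.2
  · rintro ⟨h1, h2⟩ k hk hk' ⟨c, _, hc⟩
    obtain rfl | rfl : k = 2 ∨ k = 3 := by omega
    · exact h1 (c 0) (c 1) ⟨hc 0, hc 1⟩
    · exact h2 (c 0) (c 1) (c 2) ⟨hc 0, hc 1, hc 2⟩

end comb

/-! Definability -/

section defin

variable {L : FirstOrder.Language.{0, 0}} {𝒞 : Cls L}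

theorem udef_all1 {P : ∀ c, 𝒞.car c → Prop}
    (h : ∀ {α : Type} (a : α), UDef 𝒞 (fun c v => P c (v a))) {β : Type} :
    UDef 𝒞 (fun c (_ : β → 𝒞.car c) => ∀ a, P c a) :=
  UDef.all1 (P := fun c _ x => P c x) (h (Sum.inr ()))

theorem udef_all2 {P : ∀ c, 𝒞.car c → 𝒞.car c → Prop}
    (h : ∀ {α : Type} (a b : α), UDef 𝒞 (fun c v => P c (v a) (v b))) {β : Type} :
    UDef 𝒞 (fun c (_ : β → 𝒞.car c) => ∀ a b, P c a b) := by
  refine (UDef.all (β := Fin 2) (P := fun c _ w => P c (w 0) (w 1))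
    (h (Sum.inr 0) (Sum.inr 1))).congr fun c v => ?_
  exact ⟨fun h a b => h ![a, b], fun h w => h _ _⟩

theorem udef_all3 {P : ∀ c, 𝒞.car c → 𝒞.car c → 𝒞.car c → Prop}
    (h : ∀ {α : Type} (a b d : α), UDef 𝒞 (fun c v => P c (v a) (v b) (v d))) {β : Type} :
    UDef 𝒞 (fun c (_ : β → 𝒞.car c) => ∀ a b d, P c a b d) := by
  refine (UDef.all (β := Fin 3) (P := fun c _ w => P c (w 0) (w 1) (w 2))
    (h (Sum.inr 0) (Sum.inr 1) (Sum.inr 2))).congr fun c v => ?_
  exact ⟨fun h a b d => h ![a, b, d], fun h w => h _ _ _⟩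

theorem udef_all4 {P : ∀ c, 𝒞.car c → 𝒞.car c → 𝒞.car c → 𝒞.car c → Prop}
    (h : ∀ {α : Type} (a b d e : α), UDef 𝒞 (fun c v => P c (v a) (v b) (v d) (v e)))
    {β : Type} : UDef 𝒞 (fun c (_ : β → 𝒞.car c) => ∀ a b d e, P c a b d e) := by
  refine (UDef.all (β := Fin 4) (P := fun c _ w => P c (w 0) (w 1) (w 2) (w 3))
    (h (Sum.inr 0) (Sum.inr 1) (Sum.inr 2) (Sum.inr 3))).congr fun c v => ?_
  exact ⟨fun h a b d e => h ![a, b, d, e], fun h w => h _ _ _ _⟩

variable {acc : ∀ c, 𝒞.car c → 𝒞.car c → Prop} {pref : ∀ c, 𝒞.car c → 𝒞.car c → 𝒞.car c → Prop}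
  (hacc : ∀ {α : Type} (a b : α), UDef 𝒞 (fun c v => acc c (v a) (v b)))
  (hpref : ∀ {α : Type} (a b d : α), UDef 𝒞 (fun c v => pref c (v a) (v b) (v d)))

include hacc

theorem udef_listsLE (l : ℕ) {β : Type} :
    UDef 𝒞 (fun c (_ : β → 𝒞.car c) => ListsLE l (acc c)) := by
  have h1 : ∀ {α : Type} (a : α), UDef 𝒞 (fun c v => ∀ b : Fin (l + 1) → 𝒞.car c,
      (∀ i, acc c (v a) (b i)) → ∃ i j, i ≠ j ∧ b i = b j) := by
    intro α a
    refine UDef.all (P := fun c v b => (∀ i, acc c (v a) (b i)) → ∃ i j, i ≠ j ∧ b i = b j) ?_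
    refine UDef.imp (UDef.forallFin fun i => hacc (Sum.inl a) (Sum.inr i)) ?_
    exact UDef.existsFin fun i => UDef.existsFin fun j =>
      (UDef.const (i ≠ j)).and (UDef.eq (Sum.inr i) (Sum.inr j))
  exact (udef_all1 h1).congr fun c v => listsLE_iff.symm

include hpref

theorem udef_isInstance {β : Type} :
    UDef 𝒞 (fun c (_ : β → 𝒞.car c) => IsInstance (acc c) (pref c)) := by
  refine UDef.and (udef_all2 fun a b => (hacc a b).imp (hacc b a)) ?_
  refine UDef.and (udef_all1 fun a => (hacc a a).not) ?_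
  refine UDef.and (udef_all3 fun a b d => (hpref a b d).imp ((hacc a b).and (hacc a d))) ?_
  refine UDef.and (udef_all2 fun a b => (hpref a b b).not) ?_
  refine UDef.and (udef_all4 fun a b d e => (hpref a b d).imp ((hpref a d e).imp
    (hpref a b e))) ?_
  exact udef_all3 fun a b d => (hacc a b).imp ((hacc a d).imp ((UDef.eq b d).not.imp
    ((hpref a b d).or (hpref a d b))))

variable {M : ∀ c, 𝒞.car c → 𝒞.car c → Prop}
  (hM : ∀ {α : Type} (a b : α), UDef 𝒞 (fun c v => M c (v a) (v b)))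

include hM

omit hpref in
theorem udef_isMatching {β : Type} :
    UDef 𝒞 (fun c (_ : β → 𝒞.car c) => IsMatching (acc c) (M c)) := by
  refine UDef.and (udef_all2 fun a b => (hM a b).imp (hacc a b)) ?_
  refine UDef.and (udef_all2 fun a b => (hM a b).imp (hM b a)) ?_
  exact udef_all3 fun a b d => (hM a b).imp ((hM a d).imp (UDef.eq b d))

theorem udef_wants {α : Type} (a b : α) :
    UDef 𝒞 (fun c v => Wants (acc c) (pref c) (M c) (v a) (v b)) := by
  refine UDef.or (UDef.and ?_ (hacc a b)) ?_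
  · exact UDef.all1 (P := fun c v x => ¬ M c (v a) x) (hM (Sum.inl a) (Sum.inr ())).not
  · exact UDef.ex1 (P := fun c v x => M c (v a) x ∧ pref c (v a) (v b) x)
      ((hM (Sum.inl a) (Sum.inr ())).and (hpref (Sum.inl a) (Sum.inl b) (Sum.inr ())))

end defin

/-! The expansions -/

/-- Symbols for a matching and an order. -/
inductive NPRel : ℕ → Type
  | M : NPRel 2
  | T : NPRel 2

/-- two binary symbols -/
def npLang : FirstOrder.Language.{0, 0} := ⟨fun _ => Empty, NPRel⟩

theorem npLang_finRel : FinRel npLang := by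
  refine ⟨fun _ => inferInstanceAs (IsEmpty Empty), ?_⟩
  refine Finite.of_surjective (fun b : Bool => if b then (⟨2, NPRel.M⟩ : Σ n, NPRel n) else ⟨2, NPRel.T⟩) ?_
  rintro ⟨_, R⟩
  cases R with
  | M => exact ⟨true, rfl⟩
  | T => exact ⟨false, rfl⟩

/-- all expansions of finite instances by two binary relations -/
def npCls : Cls (roomLang.sum npLang) where
  ι := Σ' A : FinStr roomLang, npLang.Structure A.carrier
  car c := c.1.carrier
  str c := @sumStructure roomLang npLang c.1.carrier c.1.str c.2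

def accN (c : npCls.ι) (a b : npCls.car c) : Prop := accOf c.1 a b
def prefN (c : npCls.ι) (a b d : npCls.car c) : Prop := prefOf c.1 a b d
def mN (c : npCls.ι) (a b : npCls.car c) : Prop :=
  @Structure.RelMap npLang c.1.carrier c.2 2 NPRel.M ![a, b]
def tN (c : npCls.ι) (a b : npCls.car c) : Prop :=
  @Structure.RelMap npLang c.1.carrier c.2 2 NPRel.T ![a, b]

theorem comp_vec2 {α β : Type} (v : α → β) (a b : α) : v ∘ ![a, b] = ![v a, v b] := by
  funext i
  fin_cases i <;> rfl

theorem comp_vec3 {α β : Type} (v : α → β) (a b c : α) :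
    v ∘ ![a, b, c] = ![v a, v b, v c] := by
  funext i
  fin_cases i <;> rfl

theorem udef_accN {α : Type} (a b : α) : UDef npCls (fun c v => accN c (v a) (v b)) :=
  (UDef.rel (𝒞 := npCls) (Sum.inl RoomRel.acc) ![a, b]).congr fun c v => by
    rw [comp_vec2]
    exact Iff.rfl

theorem udef_prefN {α : Type} (a b d : α) :
    UDef npCls (fun c v => prefN c (v a) (v b) (v d)) :=
  (UDef.rel (𝒞 := npCls) (Sum.inl RoomRel.pref) ![a, b, d]).congr fun c v => by
    rw [comp_vec3]
    exact Iff.rfl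

theorem udef_mN {α : Type} (a b : α) : UDef npCls (fun c v => mN c (v a) (v b)) :=
  (UDef.rel (𝒞 := npCls) (Sum.inr NPRel.M) ![a, b]).congr fun c v => by
    rw [comp_vec2]
    exact Iff.rfl

theorem udef_tN {α : Type} (a b : α) : UDef npCls (fun c v => tN c (v a) (v b)) :=
  (UDef.rel (𝒞 := npCls) (Sum.inr NPRel.T) ![a, b]).congr fun c v => by
    rw [comp_vec2]
    exact Iff.rfl

/-- the structure given by two relations -/
@[instance_reducible]
def npStr {A : Type} (M T : A → A → Prop) : npLang.Structure A where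
  funMap := fun f => f.elim
  RelMap := fun {n} (R : NPRel n) => match n, R with
    | _, NPRel.M => fun v => M (v 0) (v 1)
    | _, NPRel.T => fun v => T (v 0) (v 1)

theorem inNP_CS (l : ℕ) : InNP (CS l) := by
  refine ⟨npLang, npLang_finRel, ?_⟩
  have h : UDef npCls (fun c (_ : Empty → npCls.car c) =>
      IsInstance (accN c) (prefN c) ∧ ListsLE l (accN c) ∧ IsMatching (accN c) (mN c) ∧
      (∀ a b, Wants (accN c) (prefN c) (mN c) a b → tN c a b) ∧
      (∀ a b d, tN c a b → tN c b d → tN c a d) ∧ (∀ a, ¬ tN c a a)) := by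
    refine (udef_isInstance udef_accN udef_prefN).and ?_
    refine (udef_listsLE udef_accN l).and ?_
    refine (udef_isMatching udef_accN udef_mN).and ?_
    refine UDef.and (udef_all2 fun a b => (udef_wants udef_accN udef_prefN udef_mN a b).imp
      (udef_tN a b)) ?_
    refine UDef.and (udef_all3 fun a b d => (udef_tN a b).imp ((udef_tN b d).imp (udef_tN a d))) ?_
    exact udef_all1 fun a => (udef_tN a a).not
  obtain ⟨φ, hφ⟩ := h
  refine ⟨φ, fun A => ?_⟩
  have hfin := A.fin
  constructor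
  · rintro ⟨h1, h2, M, h3, h4⟩
    obtain ⟨T, h5⟩ := (cycleStable_iff h1).1 h4
    exact ⟨npStr M T, (hφ ⟨A, npStr M T⟩ default).2 ⟨h1, h2, h3, h5⟩⟩
  · rintro ⟨s, hs⟩
    obtain ⟨h1, h2, h3, h5⟩ := (hφ ⟨A, s⟩ default).1 hs
    exact ⟨h1, h2, _, h3, (cycleStable_iff (V := A.carrier) h1).2 ⟨_, h5⟩⟩

theorem inNP_CS3 (l : ℕ) : InNP (CS3 l) := by
  refine ⟨npLang, npLang_finRel, ?_⟩
  have h : UDef npCls (fun c (_ : Empty → npCls.car c) =>
      IsInstance (accN c) (prefN c) ∧ ListsLE l (accN c) ∧ IsMatching (accN c) (mN c) ∧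
      (∀ a b, ¬ (Wants (accN c) (prefN c) (mN c) a b ∧ Wants (accN c) (prefN c) (mN c) b a)) ∧
      (∀ a b d, ¬ (Wants (accN c) (prefN c) (mN c) a b ∧ Wants (accN c) (prefN c) (mN c) b d ∧
        Wants (accN c) (prefN c) (mN c) d a))) := by
    have hw : ∀ {α : Type} (a b : α), UDef npCls (fun c v =>
      Wants (accN c) (prefN c) (mN c) (v a) (v b)) := udef_wants udef_accN udef_prefN udef_mN
    refine (udef_isInstance udef_accN udef_prefN).and ?_
    refine (udef_listsLE udef_accN l).and ?_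
    refine (udef_isMatching udef_accN udef_mN).and ?_
    refine UDef.and (udef_all2 fun a b => ((hw a b).and (hw b a)).not) ?_
    exact udef_all3 fun a b d => ((hw a b).and ((hw b d).and (hw d a))).not
  obtain ⟨φ, hφ⟩ := h
  refine ⟨φ, fun A => ?_⟩
  constructor
  · rintro ⟨h1, h2, M, h3, h4⟩
    exact ⟨npStr M M, (hφ ⟨A, npStr M M⟩ default).2
      ⟨h1, h2, h3, (threeCycleStable_iff h1).1 h4⟩⟩
  · rintro ⟨s, hs⟩
    obtain ⟨h1, h2, h3, h5⟩ := (hφ ⟨A, s⟩ default).1 hs
    exact ⟨h1, h2, _, h3, (threeCycleStable_iff h1).2 h5⟩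

end Pool.Agent.H92.Room
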