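import Pool.Agent.H92.Room.NP

/-!
Lists of length at most 2: a (3-)cycle stable matching exists iff there is no closed walk of odd
length in the digraph `Step`.
-/

namespace Pool.Agent.H92.Room

variable {V : Type*} {acc : V → V → Prop} {pref : V → V → V → Prop}

/-- `w` is the first of the two agents on the list of `v`, and `v` is the last of the two agents
on the list of `w`. -/
def Step (pref : V → V → V → Prop) (v w : V) : Prop := (∃ u, pref v w u) ∧ ∃ u, pref w u v

/-- walks of odd length -/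
inductive Odd (R : V → V → Prop) : V → V → Prop
  | one {x y : V} : R x y → Odd R x y
  | step {x y z w : V} : Odd R x y → R y z → R z w → Odd R x w

theorem two_list {l : ℕ} (hl : l ≤ 2) (h : ListsLE l acc) {x a b c : V} (ha : acc x a)
    (hb : acc x b) (hab : a ≠ b) (hc : acc x c) : c = a ∨ c = b := by
  have h2 : ListsLE 2 acc := fun y => (h y).trans (by exact_mod_cast hl)
  obtain ⟨i, j, hij, he⟩ := (listsLE_iff.1 h2) x ![a, b, c] (by
    intro i
    fin_cases i
    · exact ha
    · exact hb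
    · exact hc)
  by_contra hcon
  push Not at hcon
  fin_cases i <;> fin_cases j <;> simp_all

section necessity

variable (hI : IsInstance acc pref) {l : ℕ} (hl : l ≤ 2) (hL : ListsLE l acc)

include hI in
theorem pref_ne {x a b : V} (h : pref x a b) : a ≠ b := by
  rintro rfl
  exact hI.2.2.2.1 _ _ h

include hI in
theorem pref_asymm {x a b : V} (h : pref x a b) (h' : pref x b a) : False :=
  hI.2.2.2.1 _ _ (hI.2.2.2.2.1 _ _ _ _ h h')

include hI hl hL

theorem step_unique {x y z : V} (h : Step pref x y) (h' : Step pref x z) : y = z := by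
  obtain ⟨⟨u, hu⟩, -⟩ := h
  obtain ⟨⟨u', hu'⟩, -⟩ := h'
  have h1 := hI.2.2.1 _ _ _ hu
  have h2 := hI.2.2.1 _ _ _ hu'
  have hne := pref_ne hI hu
  have hne' := pref_ne hI hu'
  rcases two_list hl hL h1.1 h1.2 hne h2.1 with rfl | rfl
  · rfl
  · rcases two_list hl hL h1.1 h1.2 hne h2.2 with rfl | rfl
    · exact (pref_asymm hI hu hu').elim
    · exact absurd rfl hne'

theorem step_step {x y z : V} (h : Step pref x y) (h' : Step pref y z) : pref y z x := by
  obtain ⟨-, ⟨w, hw⟩⟩ := h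
  obtain ⟨⟨u, hu⟩, -⟩ := h'
  have h1 := hI.2.2.1 _ _ _ hw
  have h2 := hI.2.2.1 _ _ _ hu
  have hne := pref_ne hI hw
  have hne' := pref_ne hI hu
  rcases two_list hl hL h1.1 h1.2 hne h2.1 with rfl | rfl
  · exact hw
  · rcases two_list hl hL h1.1 h1.2 hne h2.2 with rfl | rfl
    · exact (pref_asymm hI hw hu).elim
    · exact absurd rfl hne'

variable {M : V → V → Prop} (hM : IsMatching acc M) (hS : ThreeCycleStable acc pref M)

include hM hS

theorem step_alt {x y z : V} (h : Step pref x y) (h' : Step pref y z) : M x y ↔ ¬ M y z := by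
  have hp := step_step hI hl hL h h'
  have hacc := hI.2.2.1 _ _ _ hp
  constructor
  · intro h1 h2
    have := hM.2.2 _ _ _ (hM.2.1 _ _ h1) h2
    exact pref_ne hI hp this.symm
  · intro hyz
    by_contra hxy
    have hun : ∀ c, ¬ M y c := by
      intro c hc
      rcases two_list hl hL hacc.1 hacc.2 (pref_ne hI hp) (hM.1 _ _ hc) with rfl | rfl
      · exact hyz hc
      · exact hxy (hM.2.1 _ _ hc)
    obtain ⟨⟨u, hu⟩, -⟩ := h
    have hxa := hI.2.2.1 _ _ _ hu
    have hw1 : Wants acc pref M x y := by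
      by_cases hx : ∃ c, M x c
      · obtain ⟨c, hc⟩ := hx
        rcases two_list hl hL hxa.1 hxa.2 (pref_ne hI hu) (hM.1 _ _ hc) with rfl | rfl
        · exact absurd hc hxy
        · exact Or.inr ⟨_, hc, hu⟩
      · push Not at hx
        exact Or.inl ⟨hx, hxa.1⟩
    have hw2 : Wants acc pref M y x := Or.inl ⟨hun, hacc.2⟩
    exact hS.noPair (Wants.ne hI hw1) hw1 hw2

theorem odd_alt {x w : V} (h : Odd (Step pref) x w) :
    ∀ y z, Step pref x y → Step pref w z → (M x y ↔ ¬ M w z) := by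
  induction h with
  | one h =>
    intro y z hy hz
    obtain rfl := step_unique hI hl hL h hy
    exact step_alt hI hl hL hM hS hy hz
  | step h h1 h2 ih =>
    intro y z hy hz
    rw [ih _ _ hy h1, step_alt hI hl hL hM hS h1 h2, step_alt hI hl hL hM hS h2 hz]
    tauto

omit hI hl hL hM hS in
theorem odd_first {x w : V} (h : Odd (Step pref) x w) : ∃ y, Step pref x y := by
  induction h with
  | one h => exact ⟨_, h⟩
  | step _ _ _ ih => exact ih

theorem no_odd {v : V} (h : Odd (Step pref) v v) : False := by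
  obtain ⟨y, hy⟩ := odd_first h
  have := odd_alt hI hl hL hM hS h y y hy hy
  tauto

end necessity

section sufficiency

theorem exists_coloring {S : Type*} (f : Equiv.Perm S)
    (h : ∀ x, ∀ k : ℕ, f^[2 * k + 1] x ≠ x) : ∃ col : S → Prop, ∀ x, col (f x) ↔ ¬ col x := by
  classical
  have hpar : ∀ (y : S) (n m : ℤ), (f ^ n) y = (f ^ m) y → Even (n - m) := by
    intro y n m hnm
    by_contra hodd
    rw [Int.not_even_iff_odd] at hodd
    have h1 : (f ^ (n - m)) y = y := by
      rw [sub_eq_add_neg, add_comm, zpow_add, Equiv.Perm.mul_apply, hnm, ← Equiv.Perm.mul_apply,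
        ← zpow_add]
      simp
    have h2 : ∀ k : ℤ, (f ^ k) y = y → (f ^ (-k)) y = y := by
      intro k hk
      rw [zpow_neg, Equiv.Perm.inv_eq_iff_eq]
      exact hk.symm
    have h3 : (f ^ ((n - m).natAbs : ℤ)) y = y := by
      rcases Int.natAbs_eq (n - m) with h' | h'
      · rw [← h']
        exact h1
      · have : ((n - m).natAbs : ℤ) = -(n - m) := by omega
        rw [this]
        exact h2 _ h1
    rw [zpow_natCast] at h3
    obtain ⟨k, hk⟩ := Int.natAbs_odd.2 hodd
    apply h y k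
    rw [← Equiv.Perm.coe_pow, ← hk]
    exact h3
  let s : Setoid S := Equiv.Perm.SameCycle.setoid f
  let rep : S → S := fun x => (Quotient.mk s x).out
  have hrep : ∀ x, f.SameCycle (rep x) x := fun x => Quotient.mk_out (s := s) x
  choose n hn using hrep
  refine ⟨fun x => Even (n x), fun x => ?_⟩
  have hr : rep (f x) = rep x := by
    have : Quotient.mk s (f x) = Quotient.mk s x := by
      apply Quotient.sound
      change f.SameCycle (f x) x
      exact Equiv.Perm.sameCycle_apply_left.2 (Equiv.Perm.SameCycle.refl _ _)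
    simp only [rep, this]
  have h1 := hn (f x)
  rw [hr] at h1
  have h2 : (f ^ (n x + 1)) (rep x) = f x := by
    rw [add_comm, zpow_add, Equiv.Perm.mul_apply, hn x]
    simp
  have := hpar (rep x) (n (f x)) (n x + 1) (h1.trans h2.symm)
  rw [Int.even_sub] at this
  beta_reduce
  rw [this]
  exact Int.even_add_one

variable (hI : IsInstance acc pref) {l : ℕ} (hl : l ≤ 2) (hL : ListsLE l acc)
  (hodd : ¬ ∃ v, Odd (Step pref) v v)

include hI hl hL hodd

theorem exists_stable_on (n : ℕ) : ∀ S : Finset V, S.card = n →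
    ∃ (M : V → V → Prop) (r : V → ℕ), (∀ a b, M a b → a ∈ S ∧ b ∈ S) ∧ IsMatching acc M ∧
      ∀ a ∈ S, ∀ b ∈ S, Wants acc pref M a b → r b < r a := by
  classical
  induction n using Nat.strong_induction_on with
  | _ n ih =>
  intro S hS
  by_cases h0 : ∃ a ∈ S, ∀ b ∈ S, ¬ acc a b
  · obtain ⟨a, ha, hab⟩ := h0
    obtain ⟨M, r, h1, h2, h3⟩ := ih _ (by
      rw [← hS]; exact Finset.card_erase_lt_of_mem ha) (S.erase a) rfl
    have hnaS : ∀ b, ¬ M a b := fun b hb => by
      have := (h1 _ _ hb).1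
      simp at this
    refine ⟨M, r, fun x y hxy => ⟨Finset.mem_of_mem_erase (h1 _ _ hxy).1,
      Finset.mem_of_mem_erase (h1 _ _ hxy).2⟩, h2, ?_⟩
    intro x hx y hy hw
    have hacc : acc x y := by
      rcases hw with ⟨_, h⟩ | ⟨c, _, h⟩
      · exact h
      · exact (hI.2.2.1 _ _ _ h).1
    have hxa : x ≠ a := by
      rintro rfl
      exact hab _ hy hacc
    have hya : y ≠ a := by
      rintro rfl
      exact hab _ hx (hI.1 _ _ hacc)
    exact h3 x (Finset.mem_erase.2 ⟨hxa, hx⟩) y (Finset.mem_erase.2 ⟨hya, hy⟩) hw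
  push Not at h0
  -- top choices
  have htop : ∀ a ∈ S, ∃ b ∈ S, acc a b ∧ ∀ c ∈ S, acc a c → c = b ∨ pref a b c := by
    intro a ha
    obtain ⟨b, hb, hab⟩ := h0 a ha
    by_cases h1 : ∃ c ∈ S, acc a c ∧ c ≠ b
    · obtain ⟨c, hc, hac, hcb⟩ := h1
      rcases hI.2.2.2.2.2 _ _ _ hab hac hcb.symm with h2 | h2
      · refine ⟨b, hb, hab, fun d _ had => ?_⟩
        rcases two_list hl hL hab hac hcb.symm had with rfl | rfl
        · exact Or.inl rfl
        · exact Or.inr h2
      · refine ⟨c, hc, hac, fun d _ had => ?_⟩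
        rcases two_list hl hL hab hac hcb.symm had with rfl | rfl
        · exact Or.inr h2
        · exact Or.inl rfl
    · push Not at h1
      exact ⟨b, hb, hab, fun c hc hac => Or.inl (h1 c hc hac)⟩
  by_cases hmut : ∃ a ∈ S, ∃ b ∈ S, acc a b ∧ (∀ c ∈ S, acc a c → c = b ∨ pref a b c) ∧
      (∀ c ∈ S, acc b c → c = a ∨ pref b a c)
  · obtain ⟨a, ha, b, hb, hab, hta, htb⟩ := hmut
    have hne : a ≠ b := by
      rintro rfl
      exact hI.2.1 _ hab
    obtain ⟨M, r, h1, h2, h3⟩ := ih _ (by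
      rw [← hS]
      exact Finset.card_lt_card ((Finset.erase_ssubset (Finset.mem_erase.2
        ⟨hne.symm, hb⟩)).trans (Finset.erase_ssubset ha))) ((S.erase a).erase b) rfl
    have hnot : ∀ x y, M x y → x ≠ a ∧ x ≠ b ∧ y ≠ a ∧ y ≠ b ∧ x ∈ S ∧ y ∈ S := by
      intro x y hxy
      have := h1 _ _ hxy
      simp only [Finset.mem_erase] at this
      tauto
    let M' : V → V → Prop := fun x y => M x y ∨ (x = a ∧ y = b) ∨ (x = b ∧ y = a)
    have hwa : ∀ y ∈ S, ¬ Wants acc pref M' a y := by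
      rintro y hy (⟨h, _⟩ | ⟨c, h, h'⟩)
      · exact h b (Or.inr (Or.inl ⟨rfl, rfl⟩))
      · have hcb : c = b := by
          rcases h with h | ⟨_, h⟩ | ⟨h, _⟩
          · exact absurd rfl (hnot _ _ h).1
          · exact h
          · exact absurd h hne
        subst hcb
        rcases hta y hy (hI.2.2.1 _ _ _ h').1 with rfl | h''
        · exact pref_ne hI h' rfl
        · exact pref_asymm hI h' h''
    have hwb : ∀ y ∈ S, ¬ Wants acc pref M' b y := by
      rintro y hy (⟨h, _⟩ | ⟨c, h, h'⟩)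
      · exact h a (Or.inr (Or.inr ⟨rfl, rfl⟩))
      · have hca : c = a := by
          rcases h with h | ⟨h, _⟩ | ⟨_, h⟩
          · exact absurd rfl (hnot _ _ h).2.1
          · exact absurd h hne.symm
          · exact h
        subst hca
        rcases htb y hy (hI.2.2.1 _ _ _ h').1 with rfl | h''
        · exact pref_ne hI h' rfl
        · exact pref_asymm hI h' h''
    refine ⟨M', fun x => if x = a ∨ x = b then 0 else r x + 1, ?_, ⟨?_, ?_, ?_⟩, ?_⟩
    · rintro x y (h | ⟨rfl, rfl⟩ | ⟨rfl, rfl⟩)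
      · exact ⟨(hnot _ _ h).2.2.2.2.1, (hnot _ _ h).2.2.2.2.2⟩
      · exact ⟨ha, hb⟩
      · exact ⟨hb, ha⟩
    · rintro x y (h | ⟨rfl, rfl⟩ | ⟨rfl, rfl⟩)
      · exact h2.1 _ _ h
      · exact hab
      · exact hI.1 _ _ hab
    · rintro x y (h | ⟨rfl, rfl⟩ | ⟨rfl, rfl⟩)
      · exact Or.inl (h2.2.1 _ _ h)
      · exact Or.inr (Or.inr ⟨rfl, rfl⟩)
      · exact Or.inr (Or.inl ⟨rfl, rfl⟩)
    · rintro x y z (h | ⟨rfl, rfl⟩ | ⟨rfl, rfl⟩) (h' | ⟨h', rfl⟩ | ⟨h', rfl⟩)
      · exact h2.2.2 _ _ _ h h'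
      · exact absurd h' (hnot _ _ h).1
      · exact absurd h' (hnot _ _ h).2.1
      · exact absurd rfl (hnot _ _ h').1
      · rfl
      · exact absurd h' hne
      · exact absurd rfl (hnot _ _ h').2.1
      · exact absurd h' hne.symm
      · rfl
    · intro x hx y hy hw
      have hx' : x ≠ a ∧ x ≠ b := by
        constructor
        · rintro rfl
          exact hwa y hy hw
        · rintro rfl
          exact hwb y hy hw
      simp only [hx'.1, hx'.2, or_self, if_false]
      by_cases hy' : y = a ∨ y = b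
      · simp [hy']
      · rw [if_neg hy']
        push Not at hy'
        have hM' : ∀ c, M' x c ↔ M x c := by
          intro c
          constructor
          · rintro (h | ⟨h, _⟩ | ⟨h, _⟩)
            · exact h
            · exact absurd h hx'.1
            · exact absurd h hx'.2
          · exact Or.inl
        have hw' : Wants acc pref M x y := by
          rcases hw with ⟨h, h'⟩ | ⟨c, h, h'⟩
          · exact Or.inl ⟨fun c hc => h c (Or.inl hc), h'⟩
          · exact Or.inr ⟨c, (hM' c).1 h, h'⟩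
        have := h3 x (by simp [hx'.1, hx'.2, hx]) y (by simp [hy'.1, hy'.2, hy]) hw'
        omega
  -- no mutual top choices: `S` is a union of preference cycles
  have htop' : ∀ a : S, ∃ b : S, acc a.1 b.1 ∧ ∀ c ∈ S, acc a.1 c → c = b.1 ∨ pref a.1 b.1 c := by
    rintro ⟨a, ha⟩
    obtain ⟨b, hb, h⟩ := htop a ha
    exact ⟨⟨b, hb⟩, h⟩
  choose f hf1 hf2 using htop'
  have hff : ∀ a : S, f (f a) ≠ a := by
    intro a h
    apply hmut
    refine ⟨a.1, a.2, (f a).1, (f a).2, hf1 a, hf2 a, ?_⟩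
    have := hf2 (f a)
    rw [h] at this
    exact this
  have hlist : ∀ a : S, pref (f a).1 (f (f a)).1 a.1 := by
    intro a
    rcases hf2 (f a) a.1 a.2 (hI.1 _ _ (hf1 a)) with h | h
    · exact absurd (Subtype.ext h.symm) (hff a)
    · exact h
  have hinj : Function.Injective f := by
    intro a a' h
    have h1 := hlist a
    have h2 := hlist a'
    rw [← h] at h2
    have h3 := hI.2.2.1 _ _ _ h1
    have h4 := hI.2.2.1 _ _ _ h2
    rcases two_list hl hL h3.1 h3.2 (pref_ne hI h1) h4.2 with h5 | h5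
    · exact absurd h5.symm (pref_ne hI h2)
    · exact Subtype.ext h5.symm
  have hbij : Function.Bijective f := Finite.injective_iff_bijective.1 hinj
  let F : Equiv.Perm S := Equiv.ofBijective f hbij
  have hF : ∀ a, F a = f a := fun a => rfl
  have hstep : ∀ a : S, Step pref a.1 (f a).1 := by
    intro a
    obtain ⟨a', rfl⟩ := hbij.2 a
    exact ⟨⟨_, hlist a'⟩, ⟨_, hlist (f a')⟩⟩
  have hwalk : ∀ (a : S) (k : ℕ), Odd (Step pref) a.1 (F^[2 * k + 1] a).1 := by
    intro a k
    induction k with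
    | zero => exact Odd.one (hstep a)
    | succ k ih' =>
      have e : 2 * (k + 1) + 1 = (2 * k + 1) + 1 + 1 := by ring
      rw [e, Function.iterate_succ_apply', Function.iterate_succ_apply']
      exact Odd.step ih' (hstep _) (hstep _)
  obtain ⟨col, hcol⟩ := exists_coloring F (by
    intro x k hk
    apply hodd
    refine ⟨x.1, ?_⟩
    have := hwalk x k
    rwa [hk] at this)
  let M : V → V → Prop := fun x y => ∃ (hx : x ∈ S) (hy : y ∈ S),
    (col ⟨x, hx⟩ ∧ (⟨y, hy⟩ : S) = f ⟨x, hx⟩) ∨ (col ⟨y, hy⟩ ∧ (⟨x, hx⟩ : S) = f ⟨y, hy⟩)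
  have hMa : ∀ (x : S), col x → M x.1 (f x).1 := fun x hx => ⟨x.2, (f x).2, Or.inl ⟨hx, rfl⟩⟩
  have hMb : ∀ (x : S), col x → M (f x).1 x.1 := fun x hx => ⟨(f x).2, x.2, Or.inr ⟨hx, rfl⟩⟩
  refine ⟨M, fun x => if h : x ∈ S then (if col ⟨x, h⟩ then 0 else 1) else 0,
    fun a b ⟨h, h', _⟩ => ⟨h, h'⟩, ⟨?_, ?_, ?_⟩, ?_⟩
  · rintro x y ⟨hx, hy, ⟨_, h⟩ | ⟨_, h⟩⟩
    · have := hf1 ⟨x, hx⟩
      rw [← h] at this
      exact this
    · have := hf1 ⟨y, hy⟩
      rw [← h] at this
      exact hI.1 _ _ this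
  · rintro x y ⟨hx, hy, h⟩
    exact ⟨hy, hx, h.symm⟩
  · rintro x y z ⟨hx, hy, ⟨h1, h2⟩ | ⟨h1, h2⟩⟩ ⟨_, hz, ⟨g1, g2⟩ | ⟨g1, g2⟩⟩
    · exact congrArg Subtype.val (h2.trans g2.symm)
    · exfalso
      rw [g2] at h1
      exact (hcol _).1 h1 g1
    · exfalso
      rw [h2] at g1
      exact (hcol _).1 g1 h1
    · exact congrArg Subtype.val (hinj (h2.symm.trans g2))
  · intro x hx y hy hw
    -- the partner of `x`
    by_cases hc : col ⟨x, hx⟩
    · exfalso
      have hp : ∀ c, M x c → c = (f ⟨x, hx⟩).1 := by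
        rintro c ⟨_, hc', ⟨_, h⟩ | ⟨h, h'⟩⟩
        · exact congrArg Subtype.val h
        · exfalso
          rw [h'] at hc
          exact (hcol _).1 hc h
      rcases hw with ⟨h, _⟩ | ⟨c, h, h'⟩
      · exact h _ (hMa ⟨x, hx⟩ hc)
      · rw [hp c h] at h'
        rcases hf2 ⟨x, hx⟩ y hy (hI.2.2.1 _ _ _ h').1 with rfl | h''
        · exact pref_ne hI h' rfl
        · exact pref_asymm hI h' h''
    · obtain ⟨x', hx'⟩ := hbij.2 ⟨x, hx⟩
      have hc' : col x' := by
        by_contra hcc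
        apply hc
        rw [← hx']
        exact (hcol x').2 hcc
      have hxf : x = (f x').1 := congrArg Subtype.val hx'.symm
      have hMx : M x x'.1 := by
        rw [hxf]
        exact hMb x' hc'
      have hp : ∀ c, M x c → c = x'.1 := by
        rintro c ⟨_, hcS, ⟨h, _⟩ | ⟨h, h'⟩⟩
        · exact absurd h hc
        · have := hinj (hx'.trans h')
          exact congrArg Subtype.val this.symm
      have hyf : y = (f ⟨x, hx⟩).1 := by
        have hlx := hlist x'
        rw [← hxf, hx'] at hlx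
        have h3 := hI.2.2.1 _ _ _ hlx
        rcases hw with ⟨h, _⟩ | ⟨c, h, h'⟩
        · exact absurd hMx (h _)
        · rw [hp c h] at h'
          rcases two_list hl hL h3.1 h3.2 (pref_ne hI hlx) (hI.2.2.1 _ _ _ h').1 with h5 | h5
          · exact h5
          · exact absurd h5 (pref_ne hI h')
      have hcy : col ⟨y, hy⟩ := by
        have : (⟨y, hy⟩ : S) = F ⟨x, hx⟩ := Subtype.ext hyf
        rw [this]
        exact (hcol _).2 hc
      simp [hx, hy, hc, hcy]

theorem exists_cs [Finite V] : ∃ M, IsMatching acc M ∧ CycleStable acc pref M := by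
  classical
  have := Fintype.ofFinite V
  obtain ⟨M, r, _, h2, h3⟩ := exists_stable_on hI hl hL hodd _ (Finset.univ : Finset V) rfl
  refine ⟨M, h2, (cycleStable_iff hI).2 ⟨fun a b => r b < r a, fun a b h => ?_, ?_, ?_⟩⟩
  · exact h3 a (Finset.mem_univ _) b (Finset.mem_univ _) h
  · intro a b c h h'
    exact h'.trans h
  · intro a
    exact lt_irrefl _

end sufficiency

theorem hasCS_two [Finite V] {l : ℕ} (hl : l ≤ 2) :
    HasCS l acc pref ↔ IsInstance acc pref ∧ ListsLE l acc ∧ ¬ ∃ v, Odd (Step pref) v v := by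
  constructor
  · rintro ⟨hI, hL, M, hM, hS⟩
    exact ⟨hI, hL, fun ⟨v, hv⟩ => no_odd hI hl hL hM hS.three hv⟩
  · rintro ⟨hI, hL, h⟩
    exact ⟨hI, hL, exists_cs hI hl hL h⟩

theorem hasCS3_two [Finite V] {l : ℕ} (hl : l ≤ 2) :
    HasCS3 l acc pref ↔ IsInstance acc pref ∧ ListsLE l acc ∧ ¬ ∃ v, Odd (Step pref) v v := by
  constructor
  · rintro ⟨hI, hL, M, hM, hS⟩
    exact ⟨hI, hL, fun ⟨v, hv⟩ => no_odd hI hl hL hM hS hv⟩
  · rintro ⟨hI, hL, h⟩
    obtain ⟨M, hM, hS⟩ := exists_cs hI hl hL h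
    exact ⟨hI, hL, M, hM, hS.three⟩

end Pool.Agent.H92.Room
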